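import Pool.Agent.Lib.H47X.D
import Pool.Agent.Lib.H47T.A0
import Pool.Agent.Lib.H56V.Q1

/-! # H47X, chunk A1: hypothesis (a), cones -/

set_option autoImplicit false

namespace H47X

open Finset H98P H98Z H98M H63F H96H H47T

variable {V : Type*} [Fintype V] [DecidableEq V]

private theorem a1_dn (s t : V) (M : ℝ) (x : Sym2 V → ℝ) :
    Dn fun T : Finset (H56V.Sp V s) => H56V.LP s T ∧ ∀ S ∈ T, ∀ S', pyS s t M x S ≤ pyS s t M x S' := by
  intro T1 T2 hst ht
  obtain ⟨⟨h1, v, hv⟩, h4⟩ := ht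
  exact ⟨⟨fun S S' hS hS' => h1 S S' (hst hS) (hst hS'), v, fun h => hv (hst h)⟩,
    fun S hS S' => h4 S (hst hS) S'⟩

private theorem a1_nonx_symm {S T : Finset V} (h : NonX S T) : NonX T S := by
  unfold NonX at h ⊢
  rcases h with h | h | h | h
  · exact Or.inl (by rw [inter_comm]; exact h)
  · exact Or.inr (Or.inr (Or.inl h))
  · exact Or.inr (Or.inl h)
  · exact Or.inr (Or.inr (Or.inr (by rw [union_comm]; exact h)))

private theorem a1_nonx_self (S : Finset V) : NonX S S := Or.inr (Or.inl (Subset.refl _))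

/-- A vertex with negative minimal payoff is an apex. PROOF: as `H56V.caseVP` (file H56V/Q1.lean), `py_pos` and `sum_dev` of
`H47T.A0` in the place of `pay_pos`, `sum_dev`. -/
theorem caseVX {s t : V} (hst : s ≠ t) {M : ℝ} (hM : 0 ≤ M) {x : Sym2 V → ℝ} (h1 : ∑ e, x e = 1)
    (hl : ∀ v, x s(v, v) = 0) (v : V) (hv : ∀ S', pyS s t M x (Sum.inl v) ≤ pyS s t M x S')
    (hm : pyS s t M x (Sum.inl v) < 0) :
    AC fun T : Finset (H56V.Sp V s) => H56V.LP s T ∧ ∀ S ∈ T, ∀ S', pyS s t M x S ≤ pyS s t M x S' := by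
  classical
  refine ac_cone (a1_dn s t M x) (Sum.inl v : H56V.Sp V s) fun T hT => ?_
  obtain ⟨⟨hT1, hT3⟩, hT4⟩ := hT
  have hsum := H47T.sum_dev hst hM h1 hl
  have hin : ∀ S : {S : NCut V // s ∉ S.1},
      (Sum.inr S : H56V.Sp V s) ∈ insert (Sum.inl v : H56V.Sp V s) T → (Sum.inr S : H56V.Sp V s) ∈ T := by
    intro S hS
    rcases mem_insert.1 hS with h | h
    · exact absurd h (by simp)
    · exact h
  refine ⟨⟨fun S S' hS hS' => hT1 S S' (hin S hS) (hin S' hS'), ?_⟩, ?_⟩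
  · by_contra hcon
    push Not at hcon
    have hall : ∀ w : V, pyS s t M x (Sum.inl w : H56V.Sp V s) < 0 := by
      intro w
      rcases mem_insert.1 (hcon w) with h | h
      · rw [h]
        exact hm
      · exact lt_of_le_of_lt (hT4 _ h (Sum.inl v : H56V.Sp V s)) hm
    have hpp : ∀ w : V, pyS s t M x (Sum.inl w : H56V.Sp V s) =
        cutw x {w} - rq s t M {w} := fun w => py_pos h1 hl w
    have hne : (univ : Finset V).Nonempty := ⟨v, mem_univ _⟩
    have hlt : ∑ w : V, pyS s t M x (Sum.inl w : H56V.Sp V s) < ∑ _w : V, (0 : ℝ) :=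
      sum_lt_sum_of_nonempty hne fun w _ => hall w
    rw [sum_const_zero, sum_congr rfl fun w _ => hpp w, hsum] at hlt
    exact lt_irrefl _ hlt
  · intro S hS S'
    rcases mem_insert.1 hS with h | h
    · rw [h]
      exact hv S'
    · exact hT4 S h S'

/-- A minimizing cut which crosses no minimizing cut is an apex. PROOF: as `H56V.caseSP`. -/
theorem caseSX {s t : V} {M : ℝ} {x : Sym2 V → ℝ} (S0 : {S : NCut V // s ∉ S.1})
    (hS : ∀ S', pyS s t M x (Sum.inr S0) ≤ pyS s t M x S')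
    (hX : ∀ S : {S : NCut V // s ∉ S.1}, (∀ S', pyS s t M x (Sum.inr S) ≤ pyS s t M x S') → NonX S0.1.1 S.1.1) :
    AC fun T : Finset (H56V.Sp V s) => H56V.LP s T ∧ ∀ S ∈ T, ∀ S', pyS s t M x S ≤ pyS s t M x S' := by
  classical
  refine ac_cone (a1_dn s t M x) (Sum.inr S0 : H56V.Sp V s) fun T hT => ?_
  obtain ⟨⟨hT1, hT3⟩, hT4⟩ := hT
  have hXT : ∀ S : {S : NCut V // s ∉ S.1}, (Sum.inr S : H56V.Sp V s) ∈ T → NonX S0.1.1 S.1.1 := by
    intro S hST
    exact hX S fun S' => hT4 _ hST S'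
  have hin : ∀ w : V, (Sum.inl w : H56V.Sp V s) ∈ insert (Sum.inr S0 : H56V.Sp V s) T →
      (Sum.inl w : H56V.Sp V s) ∈ T := by
    intro w hw
    rcases mem_insert.1 hw with h | h
    · exact absurd h (by simp)
    · exact h
  refine ⟨⟨?_, ?_⟩, ?_⟩
  · intro S S' h h'
    rcases mem_insert.1 h with h2 | h2
    · have h3 : S = S0 := Sum.inr.inj h2
      subst h3
      rcases mem_insert.1 h' with h4 | h4
      · have h5 : S' = S := Sum.inr.inj h4
        subst h5
        exact a1_nonx_self _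
      · exact hXT S' h4
    · rcases mem_insert.1 h' with h4 | h4
      · have h5 : S' = S0 := Sum.inr.inj h4
        subst h5
        exact a1_nonx_symm (hXT S h2)
      · exact hT1 S S' h2 h4
  · obtain ⟨w, hw⟩ := hT3
    exact ⟨w, fun h => hw (hin _ h)⟩
  · intro R hR S'
    rcases mem_insert.1 hR with h | h
    · rw [h]
      exact hS S'
    · exact hT4 R h S'

end H47X
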