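import Pool.Agent.Lib.H47X.A1
import Pool.Agent.Lib.H47T.A2

/-! # H47X, chunk A2: hypothesis (a), no vertex is a minimizer -/

set_option autoImplicit false

namespace H47X

open Finset H98P H98Z H98M H63F H96H H47T

variable {V : Type*} [Fintype V] [DecidableEq V]

private theorem a2_submod {x : Sym2 V → ℝ} (h0 : ∀ e, 0 ≤ x e) (S T : Finset V) :
    cutw x (S ∩ T) + cutw x (S ∪ T) ≤ cutw x S + cutw x T := by
  unfold cutw
  rw [← sum_add_distrib, ← sum_add_distrib]
  refine sum_le_sum fun e _ => ?_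
  rw [← mul_add, ← mul_add]
  exact mul_le_mul_of_nonneg_left (px_submod e S T) (h0 e)

private theorem a2_submod' {x : Sym2 V → ℝ} (h0 : ∀ e, 0 ≤ x e) (S T : Finset V) :
    cutw x (S \ T) + cutw x (T \ S) ≤ cutw x S + cutw x T := by
  have h1 := a2_submod h0 S (univ \ T)
  have h2 : S ∩ (univ \ T) = S \ T := by
    ext v
    simp
  have h3 : S ∪ (univ \ T) = univ \ (T \ S) := by
    ext v
    simp only [mem_union, mem_sdiff, mem_univ, true_and, not_and, not_not]
    constructor
    · rintro (h | h) h'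
      · exact h
      · exact absurd h' h
    · intro h
      by_cases hT : v ∈ T
      · exact Or.inl (h hT)
      · exact Or.inr hT
  rw [h2, h3, H47T.cutw_compl, H47T.cutw_compl] at h1
  exact h1

private theorem a2_nonX {S T : Finset V} (h : NonX S T) : NonX (univ \ S) T := by
  rcases h with h | h | h | h
  · refine Or.inr (Or.inr (Or.inl fun a ha => ?_))
    rw [mem_sdiff]
    refine ⟨mem_univ a, fun hs => ?_⟩
    have h1 : a ∈ S ∩ T := mem_inter.2 ⟨hs, ha⟩
    rw [h] at h1
    exact notMem_empty a h1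
  · refine Or.inr (Or.inr (Or.inr (eq_univ_iff_forall.2 fun a => ?_)))
    rw [mem_union, mem_sdiff]
    by_cases ha : a ∈ S
    · exact Or.inr (h ha)
    · exact Or.inl ⟨mem_univ a, ha⟩
  · refine Or.inl (eq_empty_iff_forall_notMem.2 fun a ha => ?_)
    rw [mem_inter, mem_sdiff] at ha
    exact ha.1.2 (h ha.2)
  · refine Or.inr (Or.inl fun a ha => ?_)
    rw [mem_sdiff] at ha
    have h1 : a ∈ S ∪ T := by
      rw [h]
      exact mem_univ a
    rcases mem_union.1 h1 with h2 | h2
    · exact absurd h2 ha.2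
    · exact h2

/-- PROOF. As `H47T.caseN` (file H47T/A2.lean) and `H56V.caseNP` (file H56V/Q2.lean). The minimum `m` is attained at cuts
only. `f R = cutw x R - rq s t M R`; `f R ≥ m` for all nonempty `R ≠ univ` (pass to the complement if `s ∈ R`), `f {v} > m`.
Among all `R` with `2 ≤ |R|`, `2 ≤ |V - R|`, `f R = m` (with or without `s`) choose `R0` of minimal cardinality; if it
crosses a minimizing cut `S`, then by `rq_uncross` and submodularity `f (R0 ∩ S) = m` or `f (R0 \\ S) = m`: smaller. So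
`R0` crosses no minimizing cut, the same holds for its complement (`NonX` is invariant under the complement of one set);
`caseSX` for the one without `s`. -/
theorem caseNX (hV : 4 ≤ Fintype.card V) {s t : V} {M : ℝ} (hM : 0 ≤ M) {x : Sym2 V → ℝ}
    (h0 : ∀ e, 0 ≤ x e) (h1 : ∑ e, x e = 1) (hl : ∀ v, x s(v, v) = 0)
    (hv : ∀ v : V, ¬ ∀ S', pyS s t M x (Sum.inl v) ≤ pyS s t M x S') :
    AC fun T : Finset (H56V.Sp V s) => H56V.LP s T ∧ ∀ S ∈ T, ∀ S', pyS s t M x S ≤ pyS s t M x S' := by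
  classical
  obtain ⟨f, hf⟩ : ∃ f : Finset V → ℝ, ∀ R, f R = cutw x R - rq s t M R := ⟨_, fun _ => rfl⟩
  have hcut : ∀ S : {S : NCut V // s ∉ S.1}, pyS s t M x (Sum.inr S : H56V.Sp V s) = f S.1.1 := fun S => by
    rw [hf]
    exact py_cut h1 hl S.1
  have hver : ∀ v : V, pyS s t M x (Sum.inl v : H56V.Sp V s) = f {v} := fun v => by
    rw [hf]
    exact py_pos h1 hl v
  have hcompl : ∀ R : Finset V, f (univ \ R) = f R := fun R => by
    rw [hf, hf, H47T.cutw_compl, rq_compl]
  obtain ⟨S1, hS1⟩ : ∃ S1 : {S : NCut V // s ∉ S.1}, ∀ q : H56V.Sp V s,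
      pyS s t M x (Sum.inr S1 : H56V.Sp V s) ≤ pyS s t M x q := by
    obtain ⟨s0, _, hs0⟩ := exists_min_image univ (fun q : H56V.Sp V s => pyS s t M x q)
      ⟨Sum.inl s, mem_univ _⟩
    rcases s0 with v | S1
    · exact absurd (fun S' => hs0 S' (mem_univ S')) (hv v)
    · exact ⟨S1, fun q => hs0 q (mem_univ q)⟩
  obtain ⟨c, hc⟩ : ∃ c : ℝ, c = f S1.1.1 := ⟨_, rfl⟩
  have hN : ∀ T : NCut V, c ≤ f T.1 := by
    have hN0 : ∀ T : {S : NCut V // s ∉ S.1}, c ≤ f T.1.1 := by
      intro T
      have h2 := hS1 (Sum.inr T)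
      rw [hcut, hcut, ← hc] at h2
      exact h2
    intro T
    by_cases hr : s ∈ T.1
    · have hcc : univ \ (univ \ T.1) = T.1 := Finset.sdiff_sdiff_eq_self (subset_univ _)
      have h2 := hN0 ⟨⟨univ \ T.1, T.2.2, by rw [hcc]; exact T.2.1⟩, by simp [hr]⟩
      rw [← hcompl T.1]
      exact h2
    · exact hN0 ⟨T, hr⟩
  have hsing : ∀ v : V, c < f {v} := by
    intro v
    by_contra hcon
    push Not at hcon
    refine hv v ?_
    intro S'
    refine le_trans ?_ (hS1 S')
    rw [hver v, hcut S1, ← hc]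
    exact hcon
  have hgen : ∀ R : Finset V, R.Nonempty → R ≠ univ → c ≤ f R := by
    intro R hR1 hR2
    have hcR : 0 < R.card := card_pos.2 hR1
    have hne : (univ \ R).Nonempty := by
      rw [sdiff_nonempty]
      intro h
      exact hR2 (eq_univ_iff_forall.2 fun v => h (mem_univ v))
    have hcR' : 0 < (univ \ R).card := card_pos.2 hne
    by_cases h2 : R.card = 1
    · obtain ⟨v, rfl⟩ := card_eq_one.1 h2
      exact (hsing v).le
    · by_cases h3 : (univ \ R).card = 1
      · obtain ⟨w, hw⟩ := card_eq_one.1 h3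
        rw [← hcompl R, hw]
        exact (hsing w).le
      · exact hN ⟨R, by omega, by omega⟩
  obtain ⟨S0, hS0A, hS0m⟩ := exists_min_image (univ.filter fun S : NCut V => f S.1 ≤ c)
    (fun S => S.1.card) ⟨S1.1, mem_filter.2 ⟨mem_univ _, hc.ge⟩⟩
  have hS0 : f S0.1 ≤ c := (mem_filter.1 hS0A).2
  have hsmall : ∀ R : Finset V, R.Nonempty → R ⊆ S0.1 → ¬ S0.1 ⊆ R → c < f R := by
    intro R hR1 hR2 hR3
    by_contra hcon
    push Not at hcon
    have h9 : 2 ≤ R.card := by
      by_contra hc2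
      have h10 : R.card = 1 := by
        have := card_pos.2 hR1
        omega
      obtain ⟨v, hv'⟩ := card_eq_one.1 h10
      rw [hv'] at hcon
      exact absurd hcon (not_le.2 (hsing v))
    have h11 : 2 ≤ (univ \ R).card :=
      le_trans S0.2.2 (card_le_card (sdiff_subset_sdiff (Subset.refl _) hR2))
    have h12 := hS0m ⟨R, h9, h11⟩ (mem_filter.2 ⟨mem_univ _, hcon⟩)
    have h13 : R.card < S0.1.card := card_lt_card ⟨hR2, hR3⟩
    have h14 : S0.1.card ≤ R.card := h12
    omega
  have hX : ∀ S : {S : NCut V // s ∉ S.1},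
      (∀ S', pyS s t M x (Sum.inr S) ≤ pyS s t M x S') → NonX S0.1 S.1.1 := by
    intro S hS
    by_contra hX
    unfold NonX at hX
    push Not at hX
    obtain ⟨hX1, hX2, hX3, hX4⟩ := hX
    have hSm : f S.1.1 ≤ c := by
      have h6 := hS (Sum.inr S1)
      rw [hcut, hcut, ← hc] at h6
      exact h6
    have hRne : (S0.1 ∩ S.1.1).Nonempty := hX1
    rcases rq_uncross (s := s) (t := t) hM S0.1 S.1.1 with hq | hq
    · have hsub := a2_submod h0 S0.1 S.1.1
      have hUne : (S0.1 ∪ S.1.1).Nonempty := hRne.mono (inter_subset_left.trans subset_union_left)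
      have h7 := hgen (S0.1 ∪ S.1.1) hUne hX4
      have h8 := hsmall (S0.1 ∩ S.1.1) hRne inter_subset_left fun h => hX2 fun a ha => (mem_inter.1 (h ha)).2
      rw [hf] at h7 h8 hSm
      have hS0' := hS0
      rw [hf] at hS0'
      linarith
    · have hsub := a2_submod' h0 S0.1 S.1.1
      have h7 := hgen (S.1.1 \ S0.1) (sdiff_nonempty.2 hX3) (by
        intro h
        obtain ⟨v, hv'⟩ := hRne
        have h5 : v ∈ S.1.1 \ S0.1 := by
          rw [h]
          exact mem_univ v
        exact (mem_sdiff.1 h5).2 (mem_inter.1 hv').1)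
      have h8 := hsmall (S0.1 \ S.1.1) (sdiff_nonempty.2 hX2) sdiff_subset (by
        intro h
        obtain ⟨v, hv'⟩ := hRne
        exact (mem_sdiff.1 (h (mem_inter.1 hv').1)).2 (mem_inter.1 hv').2)
      rw [hf] at h7 h8 hSm
      have hS0' := hS0
      rw [hf] at hS0'
      linarith
  have hmin : ∀ S : {S : NCut V // s ∉ S.1}, f S.1.1 ≤ c →
      ∀ S', pyS s t M x (Sum.inr S) ≤ pyS s t M x S' := by
    intro S hS S'
    refine le_trans ?_ (hS1 S')
    rw [hcut, hcut, ← hc]
    exact hS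
  by_cases hr : s ∈ S0.1
  · have hcc : univ \ (univ \ S0.1) = S0.1 := Finset.sdiff_sdiff_eq_self (subset_univ _)
    refine caseSX ⟨⟨univ \ S0.1, S0.2.2, by rw [hcc]; exact S0.2.1⟩, by simp [hr]⟩ ?_ ?_
    · exact hmin _ (by
        show f (univ \ S0.1) ≤ c
        rw [hcompl]
        exact hS0)
    · intro S hS
      exact a2_nonX (hX S hS)
  · exact caseSX ⟨S0, hr⟩ (hmin _ hS0) hX

end H47X
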