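import Pool.Agent.Lib.H47X.A2

/-! # H47X, chunk A3: hypothesis (a) for infeasible points -/

set_option autoImplicit false

namespace H47X

open Finset H98P H98Z H98M H63F H96H H47T

variable {V : Type*} [Fintype V] [DecidableEq V]

/-- PROOF. If no vertex is a minimizer: `caseNX`. If one is and its payoff is negative: `caseVX`. Otherwise all payoffs
are `≥ 0`; the sum of the vertex payoffs is `0` (`H47T.sum_dev`), so they are all `0`, and all cuts satisfy the
requirement (cuts with `s`: pass to the complement, `rq_compl`, `cutw_compl`; trivial cuts: vertices): feasible. -/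
theorem hyp_aX (hV : 4 ≤ Fintype.card V) {s t : V} (hst : s ≠ t) {M : ℝ} (hM : 0 ≤ M) {x : Sym2 V → ℝ}
    (h0 : ∀ e, 0 ≤ x e) (h1 : ∑ e, x e = 1) (hl : ∀ v, x s(v, v) = 0) (hf : ¬ Feas s t M x) :
    AC fun T : Finset (H56V.Sp V s) => H56V.LP s T ∧ ∀ S ∈ T, ∀ S', pyS s t M x S ≤ pyS s t M x S' := by
  by_cases hN : ∀ v : V, ¬ ∀ S', pyS s t M x (Sum.inl v) ≤ pyS s t M x S'
  · exact caseNX hV hM h0 h1 hl hN
  rw [not_forall] at hN
  obtain ⟨v, hv⟩ := hN
  rw [not_not] at hv
  by_cases hP : pyS s t M x (Sum.inl v : H56V.Sp V s) < 0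
  · exact caseVX hst hM h1 hl v hv hP
  push Not at hP
  have hall : ∀ S' : H56V.Sp V s, 0 ≤ pyS s t M x S' := fun S' => hP.trans (hv S')
  have hge : ∀ u : V, 0 ≤ cutw x {u} - rq s t M {u} := by
    intro u
    have e1 := hall (Sum.inl u)
    change 0 ≤ py s t M x (Sum.inl (u, true)) at e1
    rwa [py_pos h1 hl] at e1
  have hsum : ∑ u : V, (cutw x {u} - rq s t M {u}) = 0 := sum_dev hst hM h1 hl
  have hdeg : ∀ u, cutw x {u} = rq s t M {u} := by
    intro u
    have e2 := (Finset.sum_eq_zero_iff_of_nonneg fun u _ => hge u).1 hsum u (mem_univ u)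
    linarith
  have hN' : ∀ S : NCut V, rq s t M S.1 ≤ cutw x S.1 := by
    intro S
    by_cases hs : s ∈ S.1
    · have e3 : s ∉ univ \ S.1 := by
        rw [mem_sdiff]
        exact fun h => h.2 hs
      have e4 : univ \ (univ \ S.1) = S.1 := by
        exact Finset.sdiff_sdiff_eq_self (Finset.subset_univ _)
      have e5 := hall (Sum.inr ⟨⟨univ \ S.1, S.2.2, by rw [e4]; exact S.2.1⟩, e3⟩)
      change 0 ≤ py s t M x (Sum.inr ⟨univ \ S.1, _⟩) at e5
      rw [py_cut h1 hl, cutw_compl, rq_compl] at e5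
      linarith
    · have e5 := hall (Sum.inr ⟨S, hs⟩)
      change 0 ≤ py s t M x (Sum.inr S) at e5
      rw [py_cut h1 hl] at e5
      linarith
  refine absurd ⟨hdeg, fun S hS hS' => ?_⟩ hf
  have hc : (univ \ S).Nonempty := by
    rw [Finset.sdiff_nonempty]
    intro h
    exact hS' (Finset.univ_subset_iff.1 h)
  by_cases c1 : S.card = 1
  · obtain ⟨u, hu⟩ := Finset.card_eq_one.1 c1
    rw [hu, hdeg]
  by_cases c2 : (univ \ S).card = 1
  · obtain ⟨u, hu⟩ := Finset.card_eq_one.1 c2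
    rw [← cutw_compl, ← rq_compl, hu, hdeg]
  have d1 := Finset.card_pos.2 hS
  have d2 := Finset.card_pos.2 hc
  exact hN' ⟨S, by omega, by omega⟩

/-- For feasible points the vertices have payoff `0`, so minimizing cuts are tight. -/
theorem min_of_feasX (hV : 4 ≤ Fintype.card V) {s t : V} {M : ℝ} {x : Sym2 V → ℝ} (h1 : ∑ e, x e = 1)
    (hl : ∀ v, x s(v, v) = 0) (hf : Feas s t M x) (S : {S : NCut V // s ∉ S.1})
    (hS : ∀ S', pyS s t M x (Sum.inr S) ≤ pyS s t M x S') : cutw x S.1.1 = rq s t M S.1.1 := by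
  have hne : Nonempty V := Fintype.card_pos_iff.1 (by omega)
  obtain ⟨v⟩ := hne
  have e1 := hS (Sum.inl v)
  change py s t M x (Sum.inr S.1) ≤ py s t M x (Sum.inl (v, true)) at e1
  rw [py_cut h1 hl, py_pos h1 hl, hf.1 v, sub_self] at e1
  have e2 : S.1.1.Nonempty := by
    rw [← Finset.card_pos]
    have := S.1.2.1
    omega
  have e3 : S.1.1 ≠ univ := by
    intro h
    have h2 := S.1.2.2
    rw [h, sdiff_self] at h2
    simp at h2
  have e4 := hf.2 S.1.1 e2 e3
  linarith

end H47X
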