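import Pool.Agent.Lib.H47X.PI
import Pool.Agent.Lib.H47T.B

/-! # H47X, chunk B: hypothesis (b) -/

set_option autoImplicit false

namespace H47X

open Finset H98P H98Z H98M H63F H96H H47T

variable {V : Type*} [Fintype V] [DecidableEq V]

/-- PROOF. `push_io` and `H47T.hyp_b` for `T.image io`: `Amax (pT s t M) μ' G ↔ Amax (pS s t M) μ G`. -/
theorem hyp_bX (hV : 4 ≤ Fintype.card V) {cross : Sym2 V → Sym2 V → Prop}
    (hsymm : ∀ e f, cross e f → cross f e) (hHD : ∀ W : Finset V, HD cross W) {s t : V} {M : ℝ} (hM : 0 ≤ M)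
    {T : Finset (H56V.Sp V s)} (hT : H56V.LP s T) {μ : H56V.Sp V s → ℝ} (hμ : μ ∈ Sx T) :
    AC fun G : Finset (Sym2 V) => KK cross G ∧ Amax (pS s t M) μ G := by
  obtain ⟨hLL, μ', hμ', -, hmm, -⟩ := push_io (t := t) (M := M) hT hμ
  have key := H47T.hyp_b hV hsymm hHD (s := s) (t := t) hM hLL hμ'
  simpa only [Amax, hmm] using key

end H47X
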