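import Mathlib

/-!
# MP_54f706, part (III): counting of the slopes without decay (Erdos-Kahane in base 243)

`dZ x` is the distance of `x` to the nearest integer, `nb l x` the number of `1 ≤ k ≤ l` such that
`x / 243 ^ k` is not `1 / 1000`-close to an integer.  The nearest integers of the numbers `x` with
`|x| ≤ 1458 * 243 ^ l` and `nb l x ≤ J` form a small set `RR l J`.
-/

namespace Pool.Agent.Lib.H47X

open Set

/-- Distance to the nearest integer. -/
noncomputable def dZ (x : ℝ) : ℝ := |x - round x|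

/-- Number of levels `1 ≤ k ≤ l` at which `x / 243 ^ k` is far from the integers. -/
noncomputable def nb : ℕ → ℝ → ℕ
  | 0, _ => 0
  | (l + 1), x => (if 1 / 1000 ≤ dZ (x / 243) then 1 else 0) + nb l (x / 243)

/-- The integers with base-243 expansion (digits in `[-122, 122]`, top part in `[-1458, 1458]`) having
at most `J` non-zero digits. -/
noncomputable def RR : ℕ → ℕ → Finset ℤ
  | 0, _ => Finset.Icc (-1458) 1458
  | (l + 1), 0 => (RR l 0).image (fun X => 243 * X)
  | (l + 1), (J + 1) => (RR l (J + 1)).image (fun X => 243 * X) ∪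
      (RR l J ×ˢ Finset.Icc (-122) 122).image (fun p => 243 * p.1 + p.2)

lemma RR_mono (l : ℕ) : ∀ {J J' : ℕ}, J ≤ J' → RR l J ⊆ RR l J' := by
  induction l with
  | zero => intro J J' _; simp [RR]
  | succ l ih =>
    intro J J' h
    cases J with
    | zero =>
      cases J' with
      | zero => exact subset_rfl
      | succ J' =>
        simp only [RR]
        exact (Finset.image_subset_image (ih (Nat.zero_le _))).trans Finset.subset_union_left
    | succ J =>
      cases J' with
      | zero => omega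
      | succ J' =>
        simp only [RR]
        exact Finset.union_subset_union (Finset.image_subset_image (ih h))
          (Finset.image_subset_image (Finset.product_subset_product (ih (by omega)) subset_rfl))

lemma round_eq_of_close {x : ℝ} {X : ℤ} (h : |x - X| < 1 / 2) : round x = X := by
  rw [round_eq, Int.floor_eq_iff]
  obtain ⟨h1, h2⟩ := abs_lt.1 h
  constructor <;> linarith

/-- Nearest integers of numbers with few far levels. -/
lemma round_mem_RR (l : ℕ) : ∀ (x : ℝ), |x| ≤ 1458 * 243 ^ l → round x ∈ RR l (nb l x) := by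
  induction l with
  | zero =>
    intro x hx
    simp only [pow_zero, mul_one] at hx
    obtain ⟨h1, h2⟩ := abs_le.1 hx
    simp only [RR, Finset.mem_Icc]
    constructor
    · rw [round_eq, Int.le_floor]; push_cast; linarith
    · rw [round_eq]
      have : ⌊x + 1 / 2⌋ < 1459 := by rw [Int.floor_lt]; push_cast; linarith
      omega
  | succ l ih =>
    intro x hx
    have hx' : |x / 243| ≤ 1458 * 243 ^ l := by
      rw [abs_div, abs_of_pos (by norm_num : (0 : ℝ) < 243), div_le_iff₀ (by norm_num)]
      calc |x| ≤ 1458 * 243 ^ (l + 1) := hx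
        _ = 1458 * 243 ^ l * 243 := by ring
    have h := ih _ hx'
    have hr := abs_sub_round (x / 243)
    have hr' := abs_sub_round x
    by_cases hd : 1 / 1000 ≤ dZ (x / 243)
    · have e : nb (l + 1) x = nb l (x / 243) + 1 := by
        simp only [nb, if_pos hd]; ring
      rw [e]
      simp only [RR, Finset.mem_union]
      right
      rw [Finset.mem_image]
      refine ⟨(round (x / 243), round x - 243 * round (x / 243)), ?_, by simp⟩
      rw [Finset.mem_product, Finset.mem_Icc]
      refine ⟨h, ?_⟩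
      obtain ⟨a1, a2⟩ := abs_le.1 hr
      obtain ⟨b1, b2⟩ := abs_le.1 hr'
      simp only
      have c1 : ((round x : ℤ) : ℝ) - 243 * (round (x / 243) : ℤ) ≤ 122 := by linarith
      have c2 : (-122 : ℝ) ≤ ((round x : ℤ) : ℝ) - 243 * (round (x / 243) : ℤ) := by linarith
      constructor
      · exact_mod_cast c2
      · exact_mod_cast c1
    · have e : nb (l + 1) x = nb l (x / 243) := by
        simp only [nb, if_neg hd]; ring
      have e2 : round x = 243 * round (x / 243) := by
        apply round_eq_of_close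
        push Not at hd
        unfold dZ at hd
        push_cast
        have : x - 243 * (round (x / 243) : ℝ) = 243 * (x / 243 - (round (x / 243) : ℝ)) := by ring
        rw [this, abs_mul, abs_of_pos (by norm_num : (0 : ℝ) < 243)]
        linarith
      rw [e, e2]
      cases hn : nb l (x / 243) with
      | zero =>
        rw [hn] at h
        simp only [RR]
        exact Finset.mem_image_of_mem _ h
      | succ J =>
        rw [hn] at h
        simp only [RR, Finset.mem_union]
        left
        exact Finset.mem_image_of_mem _ h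

/-- Size of `RR`. -/
lemma card_RR {s : ℝ} (hs : 0 < s) (hs1 : s ≤ 1) (l : ℕ) : ∀ J : ℕ,
    ((RR l J).card : ℝ) * s ^ J ≤ 2917 * (1 + 245 * s) ^ l := by
  induction l with
  | zero =>
    intro J
    have e : (RR 0 J).card = 2917 := by simp only [RR]; rw [Int.card_Icc]; rfl
    rw [e, pow_zero, mul_one]
    have h1 : s ^ J ≤ 1 := pow_le_one₀ hs.le hs1
    calc ((2917 : ℕ) : ℝ) * s ^ J ≤ ((2917 : ℕ) : ℝ) * 1 :=
          mul_le_mul_of_nonneg_left h1 (Nat.cast_nonneg _)
      _ = 2917 := by norm_num
  | succ l ih =>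
    intro J
    have hp : (0 : ℝ) ≤ 2917 * (1 + 245 * s) ^ l := by positivity
    cases J with
    | zero =>
      have h0 := ih 0
      have h1 : ((RR (l + 1) 0).card : ℝ) ≤ (RR l 0).card := by
        simp only [RR]
        exact_mod_cast Finset.card_image_le
      rw [pow_zero, mul_one] at h0 ⊢
      calc ((RR (l + 1) 0).card : ℝ) ≤ 2917 * (1 + 245 * s) ^ l := h1.trans h0
        _ ≤ 2917 * (1 + 245 * s) ^ (l + 1) := by
          rw [pow_succ]
          nlinarith [mul_nonneg hp hs.le]
    | succ J =>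
      have h1 := ih (J + 1)
      have h0 := ih J
      have hc : ((RR (l + 1) (J + 1)).card : ℝ) ≤ (RR l (J + 1)).card + 245 * (RR l J).card := by
        have h2 : (RR (l + 1) (J + 1)).card ≤ (RR l (J + 1)).card + 245 * (RR l J).card := by
          simp only [RR]
          refine (Finset.card_union_le _ _).trans ?_
          refine add_le_add Finset.card_image_le (Finset.card_image_le.trans ?_)
          rw [Finset.card_product]
          have : (Finset.Icc (-122 : ℤ) 122).card = 245 := by rw [Int.card_Icc]; rfl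
          rw [this, mul_comm]
        exact_mod_cast h2
      have hsJ : (0 : ℝ) < s ^ (J + 1) := by positivity
      calc ((RR (l + 1) (J + 1)).card : ℝ) * s ^ (J + 1)
          ≤ ((RR l (J + 1)).card + 245 * (RR l J).card) * s ^ (J + 1) :=
            mul_le_mul_of_nonneg_right hc hsJ.le
        _ = (RR l (J + 1)).card * s ^ (J + 1) + 245 * s * ((RR l J).card * s ^ J) := by
            rw [pow_succ]; ring
        _ ≤ 2917 * (1 + 245 * s) ^ l + 245 * s * (2917 * (1 + 245 * s) ^ l) := by
            gcongr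
        _ = 2917 * (1 + 245 * s) ^ (l + 1) := by rw [pow_succ]; ring

/-- Slopes without decay at level `l`: some frequency of size `243 ^ l` has few far levels. -/
def VV (δ : ℝ) (l : ℕ) : Set ℝ :=
  {u | u ∈ Icc (1 / 3 : ℝ) 3 ∧ ∃ ξ : ℝ, 243 ^ l ≤ |ξ| ∧ |ξ| < 243 ^ (l + 1) ∧
    (nb l (2 * ξ) : ℝ) < δ * l ∧ (nb l (2 * u * ξ) : ℝ) < δ * l}

/-- The exceptional set of parameter `δ`. -/
def Exc (δ : ℝ) : Set ℝ := {u | ∀ L : ℕ, ∃ l ≥ L, u ∈ VV δ l}

/-- `VV δ l` is covered by few small balls. -/
lemma VV_cover (δ : ℝ) (l : ℕ) :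
    VV δ l ⊆ ⋃ p : (RR l ⌊δ * l⌋₊ ×ˢ RR l ⌊δ * l⌋₊ : Finset (ℤ × ℤ)),
      Metric.closedBall ((p.1.2 : ℝ) / (p.1.1 : ℝ)) (2 / 243 ^ l) := by
  rintro u ⟨hu, ξ, h1, h2, h3, h4⟩
  have hpos : (0 : ℝ) < 243 ^ l := by positivity
  have h1l : (1 : ℝ) ≤ 243 ^ l := one_le_pow₀ (by norm_num)
  have hu0 : (0 : ℝ) < u := lt_of_lt_of_le (by norm_num) hu.1
  set x : ℝ := 2 * ξ with hx
  set z : ℝ := 2 * u * ξ with hz
  have hax : |x| = 2 * |ξ| := by rw [hx, abs_mul]; norm_num
  have hzx : z = u * x := by rw [hx, hz]; ring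
  have haz : |z| = u * |x| := by rw [hzx, abs_mul, abs_of_pos hu0]
  have hξ : |ξ| < 243 * 243 ^ l := by rw [pow_succ] at h2; linarith
  have hx1 : |x| ≤ 1458 * 243 ^ l := by rw [hax]; linarith
  have hz1 : |z| ≤ 1458 * 243 ^ l := by
    rw [haz, hax]
    have : u * (2 * |ξ|) ≤ 3 * (2 * |ξ|) := mul_le_mul_of_nonneg_right hu.2 (by positivity)
    linarith
  have m1 := RR_mono l (Nat.le_floor h3.le) (round_mem_RR l x hx1)
  have m2 := RR_mono l (Nat.le_floor h4.le) (round_mem_RR l z hz1)
  rw [mem_iUnion]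
  refine ⟨⟨(round x, round z), Finset.mem_product.2 ⟨m1, m2⟩⟩, ?_⟩
  rw [Metric.mem_closedBall, Real.dist_eq]
  simp only
  set X : ℝ := ((round x : ℤ) : ℝ) with hX
  set Z : ℝ := ((round z : ℤ) : ℝ) with hZ
  have r1 : |x - X| ≤ 1 / 2 := abs_sub_round x
  have r2 : |z - Z| ≤ 1 / 2 := abs_sub_round z
  have hxl : 2 * 243 ^ l ≤ |x| := by rw [hax]; linarith
  have hXl : |x| - 1 / 2 ≤ |X| := by
    have := abs_sub_abs_le_abs_sub x X
    linarith
  have hX1 : 1 ≤ |X| := by linarith
  have hX0 : X ≠ 0 := by
    intro h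
    rw [h, abs_zero] at hX1
    linarith
  have hkey : u - Z / X = ((z - Z) - u * (x - X)) / X := by
    rw [hzx]
    field_simp
    ring
  rw [hkey, abs_div, div_le_div_iff₀ (by linarith) hpos]
  have t1 : |(z - Z) - u * (x - X)| ≤ 2 := by
    calc |(z - Z) - u * (x - X)| ≤ |z - Z| + |u * (x - X)| := abs_sub _ _
      _ = |z - Z| + u * |x - X| := by rw [abs_mul, abs_of_pos hu0]
      _ ≤ 1 / 2 + 3 * (1 / 2) := by
          have : u * |x - X| ≤ 3 * (1 / 2) :=
            mul_le_mul hu.2 r1 (abs_nonneg _) (by norm_num)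
          linarith
      _ = 2 := by norm_num
  have t2 : (243 : ℝ) ^ l ≤ |X| := by linarith
  calc |(z - Z) - u * (x - X)| * 243 ^ l ≤ 2 * 243 ^ l :=
        mul_le_mul_of_nonneg_right t1 hpos.le
    _ ≤ 2 * |X| := by linarith

end Pool.Agent.Lib.H47X
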