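import Pool.Agent.Lib.H47T.D
import Pool.Agent.Lib.H56V.D
import Pool.Agent.Lib.H70H.D

/-!
# H47X, file D: definitions for Theorem T with exactly `2n - 3` edges, see PROOF.md

The strategies are those of `H56V` with the root `s`: vertices, and nontrivial cuts without `s`.
-/

set_option autoImplicit false

namespace H47X

open Finset H98P H98Z H98M H63F H96H H47T

/-- The payoff matrix. -/
noncomputable def pS {V : Type*} [Fintype V] [DecidableEq V] (s t : V) (M : ℝ) (e : Sym2 V) (S : H56V.Sp V s) : ℝ :=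
  pT s t M e (H56V.io S)

/-- The payoff of the column `S` against `x`. -/
noncomputable def pyS {V : Type*} [Fintype V] [DecidableEq V] (s t : V) (M : ℝ) (x : Sym2 V → ℝ) (S : H56V.Sp V s) :
    ℝ :=
  py s t M x (H56V.io S)

/-- `G` contains `st` and a theta graph with at most `M + 2` paths. -/
def HasTh {V : Type*} (s t : V) (M : ℝ) (G : Finset (Sym2 V)) : Prop :=
  s(s, t) ∈ G ∧ ∃ L : List (List V), Th s t G L ∧ (L.length : ℝ) ≤ M + 2

/-- The families which are allowed over feasible points: all cuts are unstable, and `G` has a theta graph or some edge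
`ab` of `G - s - t` is separated by no cut of the family which separates `s` and `t`. -/
def CC {V : Type*} [Fintype V] [DecidableEq V] (s t : V) (M : ℝ) (G : Finset (Sym2 V)) (T : Finset (H56V.Sp V s)) :
    Prop :=
  H56V.LP s T ∧ (∀ S : {S : NCut V // s ∉ S.1}, (Sum.inr S : H56V.Sp V s) ∈ T → Uns G S.1.1) ∧
    (HasTh s t M G ∨ ∃ a b : V, a ≠ b ∧ a ≠ s ∧ a ≠ t ∧ b ≠ s ∧ b ≠ t ∧ s(a, b) ∈ G ∧
      ∀ S : {S : NCut V // s ∉ S.1}, (Sum.inr S : H56V.Sp V s) ∈ T → t ∈ S.1.1 → (a ∈ S.1.1 ↔ b ∈ S.1.1))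

/-- The sets of the two-copy carrier. -/
def YX {V : Type*} [Fintype V] [DecidableEq V] (s t : V) (M : ℝ) (G : Finset (Sym2 V))
    (T : Finset (H56V.Sp V s × Bool)) : Set (Sym2 V → ℝ) :=
  {x | x ∈ Sx G ∧ H56V.LP s (T.image Prod.fst) ∧
    (∀ S, (S, false) ∈ T → ∀ S', pyS s t M x S ≤ pyS s t M x S') ∧
    ((∀ S, (S, true) ∉ T) ∨ (s(s, t) ∈ G ∧ Feas s t M x ∧ CC s t M G (T.image Prod.fst)))}

open Classical in
/-- The push forward of a chain along `Prod.fst` (degenerate simplices go to `0`). -/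
noncomputable def pf {C : Type*} [Fintype C] [DecidableEq C] (c : Finset (C × Bool) → ZMod 2) (T : Finset C) : ZMod 2 :=
  ∑ T' : Finset (C × Bool), if T'.image Prod.fst = T ∧ T'.card = T.card then c T' else 0

end H47X
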