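import Pool.Agent.Lib.H47X.D
import Pool.Agent.Lib.H47T.E1
import Pool.Agent.Lib.H47T.F1

/-! # H47X, chunk E: the families over feasible points, no theta graph -/

set_option autoImplicit false

namespace H47X

open Finset H98P H98Z H98M H63F H96H H47T

variable {V : Type*} [Fintype V] [DecidableEq V]

theorem dn_LP (s : V) : Dn (H56V.LP s) := by
  intro A T hAT hT
  refine ⟨fun S S' h h' => hT.1 S S' (hAT h) (hAT h'), ?_⟩
  obtain ⟨v, hv⟩ := hT.2
  exact ⟨v, fun h => hv (hAT h)⟩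

theorem dn_CC {s t : V} {M : ℝ} {G : Finset (Sym2 V)} : Dn (CC s t M G) := by
  intro A T hAT hT
  refine ⟨dn_LP s A T hAT hT.1, fun S h => hT.2.1 S (hAT h), ?_⟩
  rcases hT.2.2 with h | ⟨a, b, h1, h2, h3, h4, h5, h6, h7⟩
  · exact Or.inl h
  · exact Or.inr ⟨a, b, h1, h2, h3, h4, h5, h6, fun S hS hs => h7 S (hAT hS) hs⟩

private def e2P (s t : V) : H56V.Sp V s → Prop
  | .inl _ => False
  | .inr S => t ∈ S.1.1

/-- PROOF. As `H47T.ac_BB` (file H47T/E2.lean): `ac_fiber` with `P (inr S) := t ∈ S.1.1` (the cuts without `s` which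
separate), `P (inl _) := False`. Let all members of `τ` satisfy `P`, `CC s t M G τ`, `ab` the edge; the block
`B = blk s t (τ.image io) a` contains `a`, `b` and not `s`, `t`: a nontrivial cut without `s`, unstable (`ab` and `st`), which
is an apex of the fibre (`H47T.blk_nonx`, `H47T.nonx_symm`). -/
theorem ac_CC {s t : V} (hst : s ≠ t) {M : ℝ} {G : Finset (Sym2 V)} (hG : s(s, t) ∈ G) (hno : ¬ HasTh s t M G) :
    AC (CC s t M G) := by
  refine ac_fiber (CC s t M G) dn_CC (e2P s t) fun τ hτ hB => ?_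
  have hτ1 : ∀ S : {S : NCut V // s ∉ S.1}, (Sum.inr S : H56V.Sp V s) ∈ τ → t ∈ S.1.1 := fun S hS => hτ _ hS
  obtain ⟨τ', hτ'd⟩ : ∃ τ' : Finset (St V), τ' = τ.image H56V.io := ⟨_, rfl⟩
  have hpre : ∀ S : NCut V, (Sum.inr S : St V) ∈ τ' →
      ∃ h : s ∉ S.1, (Sum.inr ⟨S, h⟩ : H56V.Sp V s) ∈ τ := by
    intro S hS
    rw [hτ'd, mem_image] at hS
    obtain ⟨q, hq, hq2⟩ := hS
    rcases q with v | R
    · exact absurd hq2 Sum.inl_ne_inr
    · have h3 : R.1 = S := Sum.inr.inj hq2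
      subst h3
      exact ⟨R.2, hq⟩
  have hτ' : ∀ S : NCut V, (Sum.inr S : St V) ∈ τ' → Sep s t S.1 := by
    intro S hS
    obtain ⟨h1, h2⟩ := hpre S hS
    exact fun h3 => h1 (h3.2 (hτ1 _ h2))
  obtain ⟨a, b, hab, has, hat, hbs, hbt, habG, hsep⟩ := hB.2.2.resolve_left hno
  have haB : a ∈ blk s t τ' a := by
    unfold blk
    rw [mem_filter]
    exact ⟨mem_univ a, has, hat, fun S _ _ => Iff.rfl⟩
  have hbB : b ∈ blk s t τ' a := by
    unfold blk
    rw [mem_filter]
    refine ⟨mem_univ b, hbs, hbt, fun S _ hS => ?_⟩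
    obtain ⟨h1, h2⟩ := hpre S hS
    exact hsep ⟨S, h1⟩ h2 (hτ1 _ h2)
  have hsB : s ∉ blk s t τ' a := by
    unfold blk
    rw [mem_filter]
    exact fun h => h.2.1 rfl
  have htB : t ∉ blk s t τ' a := by
    unfold blk
    rw [mem_filter]
    exact fun h => h.2.2.1 rfl
  have hc1 : 2 ≤ (blk s t τ' a).card := Finset.one_lt_card.2 ⟨a, haB, b, hbB, hab⟩
  have hc2 : 2 ≤ (univ \ blk s t τ' a).card :=
    Finset.one_lt_card.2 ⟨s, mem_sdiff.2 ⟨mem_univ s, hsB⟩, t, mem_sdiff.2 ⟨mem_univ t, htB⟩, hst⟩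
  have hU : Uns G (blk s t τ' a) := ⟨⟨a, haB, b, hbB, hab, habG⟩, s, hsB, t, htB, hst, hG⟩
  obtain ⟨Bc, hBc⟩ : ∃ Bc : {S : NCut V // s ∉ S.1}, Bc.1.1 = blk s t τ' a :=
    ⟨⟨⟨blk s t τ' a, hc1, hc2⟩, hsB⟩, rfl⟩
  refine ac_cone (a := (Sum.inr Bc : H56V.Sp V s)) ?_ ?_
  · intro A T hAT hT
    exact ⟨fun S hS => hT.1 S (hAT hS), dn_CC _ _ (union_subset_union_right hAT) hT.2⟩
  · rintro ρ ⟨hρ, hK⟩
    have hρ' : ∀ S : {S : NCut V // s ∉ S.1}, (Sum.inr S : H56V.Sp V s) ∈ ρ → t ∉ S.1.1 := fun S hS => hρ _ hS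
    have hx : ∀ R : {S : NCut V // s ∉ S.1}, (Sum.inr R : H56V.Sp V s) ∈ τ ∪ ρ → NonX (blk s t τ' a) R.1.1 := by
      intro R hR
      refine blk_nonx hτ' a R.1 (fun S hS => ?_) ?_
      · obtain ⟨h1, h2⟩ := hpre S hS
        exact hK.1.1 ⟨S, h1⟩ R (mem_union_left _ h2) hR
      · rcases mem_union.1 hR with h | h
        · left
          rw [hτ'd, mem_image]
          exact ⟨Sum.inr R, h, rfl⟩
        · right
          exact fun h4 => h4 ⟨fun h3 => absurd h3 R.2, fun h3 => absurd h3 (hρ' R h)⟩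
    have hmem : ∀ S : {S : NCut V // s ∉ S.1}, (Sum.inr S : H56V.Sp V s) ∈ τ ∪ insert (Sum.inr Bc) ρ →
        S.1.1 = blk s t τ' a ∨ (Sum.inr S : H56V.Sp V s) ∈ τ ∪ ρ := by
      intro S hS
      rcases mem_union.1 hS with h | h
      · exact Or.inr (mem_union_left _ h)
      · rcases mem_insert.1 h with h | h
        · left
          rw [Sum.inr.inj h]
          exact hBc
        · exact Or.inr (mem_union_right _ h)
    have hmeml : ∀ v : V, (Sum.inl v : H56V.Sp V s) ∈ τ ∪ insert (Sum.inr Bc) ρ →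
        (Sum.inl v : H56V.Sp V s) ∈ τ ∪ ρ := by
      intro q hq
      rcases mem_union.1 hq with h | h
      · exact mem_union_left _ h
      · rcases mem_insert.1 h with h | h
        · exact absurd h Sum.inl_ne_inr
        · exact mem_union_right _ h
    refine ⟨fun S hS => ?_, ⟨fun S S' hS hS' => ?_, ?_⟩, fun S hS => ?_, Or.inr ?_⟩
    · rcases mem_insert.1 hS with h | h
      · rw [h]
        show ¬ (t ∈ Bc.1.1)
        rw [hBc]
        exact htB
      · exact hρ S h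
    · rcases hmem S hS with h | h
      · rcases hmem S' hS' with h' | h'
        · rw [h, h']
          exact nonx_self _
        · rw [h]
          exact hx S' h'
      · rcases hmem S' hS' with h' | h'
        · rw [h']
          exact nonx_symm (hx S h)
        · exact hK.1.1 S S' h h'
    · obtain ⟨v, hv⟩ := hK.1.2
      exact ⟨v, fun h => hv (hmeml _ h)⟩
    · rcases hmem S hS with h | h
      · rw [h]
        exact hU
      · exact hK.2.1 S h
    · refine ⟨a, b, hab, has, hat, hbs, hbt, habG, fun S hS hs => ?_⟩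
      rcases mem_union.1 hS with h | h
      · exact hsep S h hs
      · rcases mem_insert.1 h with h | h
        · rw [Sum.inr.inj h, hBc] at hs
          exact absurd hs htB
        · exact absurd hs (hρ' S h)

end H47X
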