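import Mathlib
import Pool.Agent.Lib.H47X.Count

/-!
# MP_54f706, part (III): the exceptional slopes have dimension zero
-/

namespace Pool.Agent.Lib.H47X

open Set MeasureTheory Filter Topology
open scoped ENNReal

/-- Dimension of a limsup set of small balls. -/
theorem dimH_limsup_le {S : Set ℝ} {d a : ℝ} (hd : 0 ≤ d) (ha : 0 ≤ a) (T : ℕ → Finset ℝ)
    (hcov : ∀ x ∈ S, ∀ L : ℕ, ∃ l ≥ L, ∃ c ∈ T l, x ∈ Metric.closedBall c (a / 243 ^ l))
    (hsum : Summable (fun l => ((T l).card : ℝ) * (2 * (a / 243 ^ l)) ^ d)) :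
    dimH S ≤ ENNReal.ofReal d := by
  have hr : Tendsto (fun n : ℕ => ENNReal.ofReal (2 * (a / 243 ^ n))) atTop (𝓝 0) := by
    have ht : Tendsto (fun n : ℕ => 2 * (a / 243 ^ n)) atTop (𝓝 0) := by
      have := (tendsto_pow_atTop_nhds_zero_of_lt_one (by norm_num : (0 : ℝ) ≤ 1 / 243)
        (by norm_num)).const_mul (2 * a)
      rw [mul_zero] at this
      refine this.congr fun n => ?_
      rw [one_div, inv_pow, mul_assoc]; rfl
    have := ENNReal.tendsto_ofReal ht
    rwa [ENNReal.ofReal_zero] at this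
  have hball : ∀ (c : ℝ) (l : ℕ), Metric.ediam (Metric.closedBall c (a / 243 ^ l)) ≤
      ENNReal.ofReal (2 * (a / 243 ^ l)) := by
    intro c l
    have h0 : 0 ≤ a / 243 ^ l := by positivity
    refine Metric.ediam_le_of_forall_dist_le fun x hx y hy => ?_
    rw [Metric.mem_closedBall] at hx hy
    calc dist x y ≤ dist x c + dist y c := dist_triangle_right _ _ _
      _ ≤ 2 * (a / 243 ^ l) := by linarith
  have hmono : ∀ n l : ℕ, ENNReal.ofReal (2 * (a / 243 ^ (n + l))) ≤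
      ENNReal.ofReal (2 * (a / 243 ^ n)) := by
    intro n l
    apply ENNReal.ofReal_le_ofReal
    have : (243 : ℝ) ^ n ≤ 243 ^ (n + l) := pow_le_pow_right₀ (by norm_num) (by omega)
    gcongr
  set F : ℕ → ℝ := fun l => ((T l).card : ℝ) * (2 * (a / 243 ^ l)) ^ d with hF
  have hF0 : ∀ l, 0 ≤ F l := fun l => by positivity
  have key : μH[d] S ≤ ENNReal.ofReal (∑' l, F l) := by
    refine (Measure.hausdorffMeasure_le_liminf_tsum d S (l := atTop)
      (fun n : ℕ => ENNReal.ofReal (2 * (a / 243 ^ n))) hr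
      (fun n (i : Σ l : ℕ, {c // c ∈ T (n + l)}) =>
        Metric.closedBall (i.2 : ℝ) (a / 243 ^ (n + i.1)))
      (Eventually.of_forall fun n i => (hball _ _).trans (hmono n i.1))
      (Eventually.of_forall fun n x hx => ?_)).trans ?_
    · obtain ⟨l, hl, c, hc, hxc⟩ := hcov x hx n
      obtain ⟨m, rfl⟩ := Nat.exists_eq_add_of_le hl
      exact mem_iUnion.2 ⟨⟨m, c, hc⟩, hxc⟩
    · refine liminf_le_of_frequently_le' (Frequently.of_forall fun n => ?_)
      rw [ENNReal.tsum_sigma']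
      have h1 : ∀ l : ℕ, (∑' b : {c // c ∈ T (n + l)},
          Metric.ediam (Metric.closedBall ((⟨l, b⟩ : Σ l : ℕ, {c // c ∈ T (n + l)}).2 : ℝ)
            (a / 243 ^ (n + (⟨l, b⟩ : Σ l : ℕ, {c // c ∈ T (n + l)}).1))) ^ d) ≤
          ENNReal.ofReal (F (n + l)) := by
        intro l
        rw [tsum_fintype]
        calc ∑ b : {c // c ∈ T (n + l)},
              Metric.ediam (Metric.closedBall (b : ℝ) (a / 243 ^ (n + l))) ^ d
            ≤ ∑ _b : {c // c ∈ T (n + l)}, ENNReal.ofReal (2 * (a / 243 ^ (n + l))) ^ d :=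
              Finset.sum_le_sum fun b _ => ENNReal.rpow_le_rpow (hball _ _) hd
          _ = ENNReal.ofReal (F (n + l)) := by
              rw [Finset.sum_const, Finset.card_univ, Fintype.card_coe, nsmul_eq_mul,
                ENNReal.ofReal_rpow_of_nonneg (by positivity) hd, hF,
                ENNReal.ofReal_mul (by positivity), ENNReal.ofReal_natCast]
      refine (ENNReal.tsum_le_tsum h1).trans ?_
      rw [← ENNReal.ofReal_tsum_of_nonneg (fun l => hF0 _)
        (by simpa [add_comm] using (summable_nat_add_iff n).2 hsum)]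
      apply ENNReal.ofReal_le_ofReal
      have := hsum.sum_add_tsum_nat_add n
      have h2 : 0 ≤ ∑ i ∈ Finset.range n, F i := Finset.sum_nonneg fun i _ => hF0 i
      have h3 : ∑' l, F (n + l) = ∑' l, F (l + n) := by simp_rw [add_comm]
      rw [h3]
      linarith
  have hne : μH[((⟨d, hd⟩ : NNReal) : ℝ)] S ≠ ⊤ :=
    ne_top_of_le_ne_top ENNReal.ofReal_ne_top key
  have := dimH_le_of_hausdorffMeasure_ne_top hne
  refine this.trans_eq ?_
  rw [ENNReal.ofReal, Real.toNNReal_of_nonneg hd]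
  rfl

lemma VV_mono {δ δ' : ℝ} (h : δ ≤ δ') (l : ℕ) : VV δ l ⊆ VV δ' l := by
  rintro u ⟨hu, ξ, h1, h2, h3, h4⟩
  have : δ * l ≤ δ' * l := mul_le_mul_of_nonneg_right h (Nat.cast_nonneg _)
  exact ⟨hu, ξ, h1, h2, h3.trans_le this, h4.trans_le this⟩

lemma Exc_mono {δ δ' : ℝ} (h : δ ≤ δ') : Exc δ ⊆ Exc δ' := by
  intro u hu L
  obtain ⟨l, hl, hul⟩ := hu L
  exact ⟨l, hl, VV_mono h l hul⟩

/-- The exceptional set of a small parameter has small dimension. -/
theorem dimH_Exc_le {η : ℝ} (hη : 0 < η) : ∃ δ : ℝ, 0 < δ ∧ dimH (Exc δ) ≤ ENNReal.ofReal η := by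
  set Lg : ℝ := Real.log 243 with hLg
  have hLg0 : 0 < Lg := Real.log_pos (by norm_num)
  -- choice of `s`
  obtain ⟨s, hs0, hs1, hs2⟩ : ∃ s : ℝ, 0 < s ∧ s < 1 ∧ 490 * s ≤ η * Lg / 4 := by
    refine ⟨min (1 / 2) (η * Lg / 1960), by positivity, ?_, ?_⟩
    · exact lt_of_le_of_lt (min_le_left _ _) (by norm_num)
    · have := min_le_right (1 / 2) (η * Lg / 1960)
      linarith
  have hls : Real.log s < 0 := Real.log_neg hs0 hs1
  -- choice of `δ`
  obtain ⟨δ, hδ0, hδ⟩ : ∃ δ : ℝ, 0 < δ ∧ 2 * δ * (-Real.log s) ≤ η * Lg / 4 := by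
    refine ⟨η * Lg / (8 * (-Real.log s)), by
      apply div_pos (by positivity)
      linarith, le_of_eq ?_⟩
    have : Real.log s ≠ 0 := hls.ne
    field_simp
    norm_num
  refine ⟨δ, hδ0, ?_⟩
  set T : ℕ → Finset ℝ := fun l =>
    (RR l ⌊δ * l⌋₊ ×ˢ RR l ⌊δ * l⌋₊).image (fun p : ℤ × ℤ => (p.2 : ℝ) / (p.1 : ℝ)) with hT
  refine dimH_limsup_le (a := 2) hη.le (by norm_num) T ?_ ?_
  · intro u hu L
    obtain ⟨l, hl, hul⟩ := hu L
    have := VV_cover δ l hul
    rw [mem_iUnion] at this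
    obtain ⟨p, hp⟩ := this
    exact ⟨l, hl, _, Finset.mem_image_of_mem _ p.2, hp⟩
  · -- summability
    have hcard : ∀ l : ℕ, ((RR l ⌊δ * l⌋₊).card : ℝ) ≤
        2917 * Real.exp ((η * Lg / 8 + η * Lg / 8) * l) := by
      intro l
      have h1 := card_RR hs0 hs1.le l ⌊δ * l⌋₊
      have hsJ : Real.exp (-(η * Lg / 8) * l) ≤ s ^ ⌊δ * l⌋₊ := by
        have h2 : (⌊δ * l⌋₊ : ℝ) ≤ δ * l := Nat.floor_le (by positivity)
        rw [← Real.rpow_natCast s, Real.rpow_def_of_pos hs0]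
        apply Real.exp_le_exp.2
        have h3 : δ * (-Real.log s) ≤ η * Lg / 8 := by linarith
        have h4 : (⌊δ * l⌋₊ : ℝ) * (-Real.log s) ≤ δ * l * (-Real.log s) :=
          mul_le_mul_of_nonneg_right h2 (by linarith)
        have h5 : δ * (-Real.log s) * l ≤ η * Lg / 8 * l :=
          mul_le_mul_of_nonneg_right h3 (Nat.cast_nonneg _)
        nlinarith
      have h6 : (1 + 245 * s) ^ l ≤ Real.exp ((η * Lg / 8) * l) := by
        calc (1 + 245 * s) ^ l ≤ (Real.exp (245 * s)) ^ l := by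
              apply pow_le_pow_left₀ (by positivity)
              have := Real.add_one_le_exp (245 * s)
              linarith
          _ = Real.exp (245 * s * l) := by rw [← Real.exp_nat_mul]; ring_nf
          _ ≤ Real.exp ((η * Lg / 8) * l) := by
              apply Real.exp_le_exp.2
              apply mul_le_mul_of_nonneg_right _ (Nat.cast_nonneg _)
              linarith
      have h7 : ((RR l ⌊δ * l⌋₊).card : ℝ) * Real.exp (-(η * Lg / 8) * l) ≤
          2917 * Real.exp ((η * Lg / 8) * l) := by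
        calc ((RR l ⌊δ * l⌋₊).card : ℝ) * Real.exp (-(η * Lg / 8) * l)
            ≤ ((RR l ⌊δ * l⌋₊).card : ℝ) * s ^ ⌊δ * l⌋₊ :=
              mul_le_mul_of_nonneg_left hsJ (Nat.cast_nonneg _)
          _ ≤ 2917 * (1 + 245 * s) ^ l := h1
          _ ≤ 2917 * Real.exp ((η * Lg / 8) * l) := by linarith
      have h8 : ((RR l ⌊δ * l⌋₊).card : ℝ) =
          ((RR l ⌊δ * l⌋₊).card : ℝ) * Real.exp (-(η * Lg / 8) * l) *
            Real.exp ((η * Lg / 8) * l) := by
        rw [mul_assoc, ← Real.exp_add]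
        have : -(η * Lg / 8) * l + η * Lg / 8 * l = 0 := by ring
        rw [this, Real.exp_zero, mul_one]
      rw [h8]
      calc ((RR l ⌊δ * l⌋₊).card : ℝ) * Real.exp (-(η * Lg / 8) * l) *
            Real.exp ((η * Lg / 8) * l)
          ≤ 2917 * Real.exp ((η * Lg / 8) * l) * Real.exp ((η * Lg / 8) * l) :=
            mul_le_mul_of_nonneg_right h7 (Real.exp_pos _).le
        _ = 2917 * Real.exp ((η * Lg / 8 + η * Lg / 8) * l) := by
            rw [mul_assoc, ← Real.exp_add]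
            ring_nf
    have hterm : ∀ l : ℕ, ((T l).card : ℝ) * (2 * (2 / 243 ^ l)) ^ η ≤
        2917 ^ 2 * 4 ^ η * (Real.exp (-(η * Lg / 2))) ^ l := by
      intro l
      have h1 : ((T l).card : ℝ) ≤ (2917 * Real.exp ((η * Lg / 8 + η * Lg / 8) * l)) ^ 2 := by
        have h2 : (T l).card ≤ (RR l ⌊δ * l⌋₊).card * (RR l ⌊δ * l⌋₊).card := by
          refine Finset.card_image_le.trans ?_
          rw [Finset.card_product]
        calc ((T l).card : ℝ) ≤ ((RR l ⌊δ * l⌋₊).card : ℝ) * ((RR l ⌊δ * l⌋₊).card : ℝ) := by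
              exact_mod_cast h2
          _ ≤ _ := by
              rw [← sq]
              exact pow_le_pow_left₀ (Nat.cast_nonneg _) (hcard l) 2
      have h3 : (2 * (2 / 243 ^ l : ℝ)) ^ η = 4 ^ η * Real.exp (-(η * Lg) * l) := by
        have e : (2 * (2 / 243 ^ l : ℝ)) = 4 * (243 ^ l)⁻¹ := by ring
        rw [e, Real.mul_rpow (by norm_num) (by positivity)]
        congr 1
        rw [Real.rpow_def_of_pos (by positivity), Real.log_inv, Real.log_pow]
        congr 1
        rw [hLg]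
        ring
      rw [h3]
      calc ((T l).card : ℝ) * (4 ^ η * Real.exp (-(η * Lg) * l))
          ≤ (2917 * Real.exp ((η * Lg / 8 + η * Lg / 8) * l)) ^ 2 *
            (4 ^ η * Real.exp (-(η * Lg) * l)) :=
            mul_le_mul_of_nonneg_right h1 (by positivity)
        _ = 2917 ^ 2 * 4 ^ η * (Real.exp (-(η * Lg / 2))) ^ l := by
            rw [mul_pow, ← Real.exp_nat_mul, ← Real.exp_nat_mul]
            have : 2917 ^ 2 * Real.exp (((2 : ℕ) : ℝ) * ((η * Lg / 8 + η * Lg / 8) * l)) *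
                (4 ^ η * Real.exp (-(η * Lg) * l)) = 2917 ^ 2 * 4 ^ η *
                (Real.exp (((2 : ℕ) : ℝ) * ((η * Lg / 8 + η * Lg / 8) * l)) *
                  Real.exp (-(η * Lg) * l)) := by ring
            rw [this, ← Real.exp_add]
            congr 2
            push_cast
            ring
    have hlt : Real.exp (-(η * Lg / 2)) < 1 := by
      rw [Real.exp_lt_one_iff]
      have : 0 < η * Lg / 2 := by positivity
      linarith
    refine Summable.of_nonneg_of_le (fun l => by positivity) hterm ?_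
    exact (summable_geometric_of_lt_one (Real.exp_pos _).le hlt).mul_left _

/-- The exceptional slopes. -/
def ExcAll : Set ℝ := ⋂ m : ℕ, Exc (1 / ((m : ℝ) + 1))

theorem dimH_ExcAll : dimH ExcAll = 0 := by
  refine le_antisymm ?_ zero_le
  refine ENNReal.le_of_forall_pos_le_add fun η hη _ => ?_
  rw [zero_add]
  obtain ⟨δ, hδ, h⟩ := dimH_Exc_le (η := η) (by exact_mod_cast hη)
  obtain ⟨m, hm⟩ := exists_nat_one_div_lt hδ
  have h1 : ExcAll ⊆ Exc δ := (iInter_subset _ m).trans (Exc_mono hm.le)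
  refine (dimH_mono h1).trans (h.trans_eq ?_)
  exact ENNReal.ofReal_coe_nnreal

/-- Outside the exceptional set, all frequencies have a positive proportion of far levels. -/
theorem exists_of_notMem {u : ℝ} (hu : u ∈ Icc (1 / 3 : ℝ) 3) (hE : u ∉ ExcAll) :
    ∃ δ : ℝ, 0 < δ ∧ ∃ L : ℕ, ∀ l ≥ L, ∀ ξ : ℝ, 243 ^ l ≤ |ξ| → |ξ| < 243 ^ (l + 1) →
      δ * l ≤ (nb l (2 * ξ) : ℝ) ∨ δ * l ≤ (nb l (2 * u * ξ) : ℝ) := by
  unfold ExcAll at hE
  rw [mem_iInter] at hE
  push Not at hE
  obtain ⟨m, hm⟩ := hE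
  refine ⟨1 / ((m : ℝ) + 1), by positivity, ?_⟩
  unfold Exc at hm
  rw [mem_ofPred_eq] at hm
  push Not at hm
  obtain ⟨L, hL⟩ := hm
  refine ⟨L, fun l hl ξ h1 h2 => ?_⟩
  by_contra hcon
  push Not at hcon
  exact hL l hl ⟨hu, ξ, h1, h2, hcon.1, hcon.2⟩

end Pool.Agent.Lib.H47X
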