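import Pool.Agent.Lib.H47X.D
import Pool.Agent.Lib.H70H.K1
import Pool.Agent.Lib.H56V.D

/-! # H47X, chunk K1: fibres, truncated version -/

set_option autoImplicit false

namespace H47X

open Finset H98P H98Z H98M H63F H96H H47T

variable {C : Type*} [Fintype C] [DecidableEq C]

/-- PROOF: decompose the cycle by cardinalities (`H98P.bd_card`: the part of `z` on the sets of cardinality `j` is a cycle),
apply `h j` and sum up. -/
theorem ack_of_hc {k : ℕ} {K : Finset C → Prop} (h : ∀ j, j ≤ k → H56V.HC K j) : H70H.ACk k K := by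
  intro z hz hb
  have key : ∀ j : ℕ, ∃ c : Finset C → ZMod 2, j ≤ k → (∀ s, c s ≠ 0 → K s ∧ s.card = j + 1) ∧
      ∀ r, bd c r = if r.card = j then z r else 0 := by
    intro j
    by_cases hj : j ≤ k
    · obtain ⟨c, hc1, hc2⟩ := h j hj (fun s => if s.card = j then z s else 0)
        (by
          intro s hs
          by_cases h1 : s.card = j
          · have hs' : (if s.card = j then z s else 0) ≠ 0 := hs
            rw [if_pos h1] at hs'
            exact ⟨(hz s hs').1, h1⟩
          · have hs' : (if s.card = j then z s else 0) ≠ 0 := hs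
            rw [if_neg h1] at hs'
            exact absurd rfl hs')
        (by
          intro r
          rcases j with _ | m
          · unfold bd
            refine sum_eq_zero fun e he => ?_
            show (if (insert e r).card = 0 then z (insert e r) else 0) = 0
            rw [if_neg]
            rw [card_insert_of_notMem (mem_compl.1 he)]
            omega
          · rw [bd_card, hb r, ite_self])
      exact ⟨c, fun _ => ⟨hc1, hc2⟩⟩
    · exact ⟨fun _ => 0, fun h1 => absurd h1 hj⟩
  choose c hc using key
  refine ⟨fun s => ∑ j ∈ range (k + 1), c j s, ?_, ?_⟩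
  · intro s hs
    obtain ⟨j, hj, hjs⟩ := exists_ne_zero_of_sum_ne_zero hs
    rw [mem_range] at hj
    obtain ⟨q1, q2⟩ := (hc j (by omega)).1 s hjs
    exact ⟨q1, by omega⟩
  · intro r
    have h1 : bd (fun s => ∑ j ∈ range (k + 1), c j s) r = ∑ j ∈ range (k + 1), bd (c j) r := by
      unfold bd
      exact sum_comm
    rw [h1]
    have h2 : ∑ j ∈ range (k + 1), bd (c j) r = ∑ j ∈ range (k + 1), if r.card = j then z r else 0 := by
      refine sum_congr rfl fun j hj => ?_
      rw [mem_range] at hj
      exact (hc j (by omega)).2 r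
    rw [h2, sum_ite_eq]
    by_cases h3 : r.card ∈ range (k + 1)
    · rw [if_pos h3]
    · rw [if_neg h3]
      by_contra hne
      apply h3
      rw [mem_range]
      have := (hz r (Ne.symm hne)).2
      omega

open Classical in
private theorem fib_step (N : ℕ) (K : Finset C → Prop) (hK : Dn K) (P : C → Prop)
    (h : ∀ τ : Finset C, (∀ S ∈ τ, P S) → K τ → τ.card ≤ N →
      H70H.ACk (N - τ.card) fun ρ : Finset C => (∀ S ∈ ρ, ¬ P S) ∧ K (τ ∪ ρ))
    (k : ℕ) (z : Finset C → ZMod 2) (hz : ∀ s, z s ≠ 0 → K s ∧ s.card ≤ N) (hb : ∀ r, bd z r = 0)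
    (hc : ∀ s, z s ≠ 0 → (s.filter P).card < k + 1) :
    ∃ c : Finset C → ZMod 2, (∀ s, c s ≠ 0 → K s ∧ s.card ≤ N + 1) ∧
      ∀ r : Finset C, k ≤ (r.filter P).card → bd c r = z r := by
  have key : ∀ τ : Finset C, ∃ cc : Finset C → ZMod 2, (∀ S ∈ τ, P S) → τ.card = k →
      (∀ ρ, cc ρ ≠ 0 → ((∀ S ∈ ρ, ¬ P S) ∧ K (τ ∪ ρ)) ∧ τ.card + ρ.card ≤ N + 1) ∧
      ∀ ρ, (∀ S ∈ ρ, ¬ P S) → bd cc ρ = z (τ ∪ ρ) := by
    intro τ
    by_cases h1 : (∀ S ∈ τ, P S) ∧ τ.card = k ∧ K τ ∧ τ.card ≤ N
    · obtain ⟨hP, hk, hKt, hN⟩ := h1
      obtain ⟨zt, hzt⟩ : ∃ zt : Finset C → ZMod 2,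
          ∀ ρ, zt ρ = if ∀ S ∈ ρ, ¬ P S then z (τ ∪ ρ) else 0 := ⟨_, fun _ => rfl⟩
      have hs : ∀ ρ, zt ρ ≠ 0 → ((∀ S ∈ ρ, ¬ P S) ∧ K (τ ∪ ρ)) ∧ ρ.card ≤ N - τ.card := by
        intro ρ hρ
        rw [hzt] at hρ
        by_cases h2 : ∀ S ∈ ρ, ¬ P S
        · rw [if_pos h2] at hρ
          refine ⟨⟨h2, (hz _ hρ).1⟩, ?_⟩
          have h3 := (hz _ hρ).2
          rw [card_union_of_disjoint] at h3
          · omega
          · rw [disjoint_left]
            exact fun x hx hx' => h2 x hx' (hP x hx)
        · rw [if_neg h2] at hρ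
          exact absurd rfl hρ
      have hcyc : ∀ ρ, bd zt ρ = 0 := by
        intro ρ
        by_cases h2 : ∀ S ∈ ρ, ¬ P S
        · rw [← hb (τ ∪ ρ)]
          unfold bd
          symm
          have hsub : (τ ∪ ρ)ᶜ ⊆ ρᶜ := compl_subset_compl.2 subset_union_right
          rw [← sum_subset hsub (f := fun e => zt (insert e ρ))]
          · refine sum_congr rfl fun e he => ?_
            rw [mem_compl, mem_union, not_or] at he
            by_cases hPe : P e
            · rw [hzt, if_neg (fun h3 => h3 e (mem_insert_self _ _) hPe)]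
              by_contra hne
              have h4 := hc _ hne
              have h5 : insert e τ ⊆ (insert e (τ ∪ ρ)).filter P := by
                intro x hx
                rw [mem_filter, mem_insert, mem_union]
                rcases mem_insert.1 hx with h6 | h6
                · exact ⟨Or.inl h6, h6 ▸ hPe⟩
                · exact ⟨Or.inr (Or.inl h6), hP x h6⟩
              have h7 := card_le_card h5
              rw [card_insert_of_notMem he.1, hk] at h7
              omega
            · rw [hzt, if_pos, union_insert]
              intro S hS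
              rcases mem_insert.1 hS with h6 | h6
              · rw [h6]
                exact hPe
              · exact h2 S h6
          · intro e he1 he2
            rw [mem_compl] at he1
            have he3 : e ∈ τ := by
              by_contra h8
              exact he2 (by rw [mem_compl, mem_union, not_or]; exact ⟨h8, he1⟩)
            rw [hzt, if_neg (fun h3 => h3 e (mem_insert_self _ _) (hP e he3))]
        · unfold bd
          refine sum_eq_zero fun e _ => ?_
          rw [hzt, if_neg]
          intro h3
          exact h2 fun S hS => h3 S (mem_insert_of_mem hS)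
      obtain ⟨cc, hc1, hc2⟩ := h τ hP hKt hN zt hs hcyc
      refine ⟨cc, fun _ _ => ⟨fun ρ hρ => ⟨(hc1 ρ hρ).1, ?_⟩, fun ρ hρ => ?_⟩⟩
      · have := (hc1 ρ hρ).2
        omega
      · rw [hc2, hzt, if_pos hρ]
    · refine ⟨fun _ => 0, fun hP hk => ⟨fun ρ hρ => absurd rfl hρ, fun ρ _ => ?_⟩⟩
      have h0 : z (τ ∪ ρ) = 0 := by
        by_contra hne
        exact h1 ⟨hP, hk, hK τ (τ ∪ ρ) subset_union_left (hz _ hne).1,
          (card_le_card subset_union_left).trans (hz _ hne).2⟩
      rw [h0]
      unfold bd
      exact sum_eq_zero fun _ _ => rfl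
  choose cc hcc using key
  obtain ⟨c, hcd⟩ : ∃ c : Finset C → ZMod 2, ∀ s, c s =
      if (s.filter P).card = k then cc (s.filter P) (s.filter fun x => ¬ P x) else 0 :=
    ⟨_, fun _ => rfl⟩
  have hfP : ∀ s : Finset C, ∀ S ∈ s.filter P, P S := fun s S hS => (mem_filter.1 hS).2
  refine ⟨c, ?_, ?_⟩
  · intro s hs
    rw [hcd] at hs
    by_cases h1 : (s.filter P).card = k
    · rw [if_pos h1] at hs
      obtain ⟨h2, h3⟩ := (hcc (s.filter P) (hfP s) h1).1 _ hs
      refine ⟨?_, ?_⟩
      · have h4 := h2.2
        rwa [filter_union_filter_not_eq] at h4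
      · rwa [card_filter_add_card_filter_not] at h3
    · rw [if_neg h1] at hs
      exact absurd rfl hs
  · intro r hr
    rcases Nat.lt_or_ge k (r.filter P).card with h1 | h1
    · have hz0 : z r = 0 := by
        by_contra hne
        have := hc _ hne
        omega
      rw [hz0]
      unfold bd
      refine sum_eq_zero fun e _ => ?_
      rw [hcd, if_neg]
      have h2 : r.filter P ⊆ (insert e r).filter P := filter_subset_filter _ (subset_insert _ _)
      have := card_le_card h2
      omega
    · have hk : (r.filter P).card = k := le_antisymm h1 hr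
      have h3 := (hcc (r.filter P) (hfP r) hk).2 (r.filter fun x => ¬ P x)
        (fun S hS => (mem_filter.1 hS).2)
      rw [filter_union_filter_not_eq] at h3
      rw [← h3]
      unfold bd
      have hsub : rᶜ ⊆ (r.filter fun x => ¬ P x)ᶜ := compl_subset_compl.2 (filter_subset _ _)
      rw [← sum_subset hsub (f := fun e => cc (r.filter P) (insert e (r.filter fun x => ¬ P x)))]
      · refine sum_congr rfl fun e he => ?_
        rw [mem_compl] at he
        rw [hcd]
        by_cases hPe : P e
        · rw [if_neg]
          · symm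
            by_contra hne
            exact ((hcc (r.filter P) (hfP r) hk).1 _ hne).1.1 e (mem_insert_self _ _) hPe
          · rw [filter_insert, if_pos hPe, card_insert_of_notMem (fun h5 => he (mem_filter.1 h5).1)]
            omega
        · rw [filter_insert, if_neg hPe, if_pos hk, filter_insert, if_pos hPe]
      · intro e he1 he2
        rw [mem_compl, not_not] at he2
        have hPe : P e := by
          by_contra h6
          exact (mem_compl.1 he1) (mem_filter.2 ⟨he2, h6⟩)
        by_contra hne
        exact ((hcc (r.filter P) (hfP r) hk).1 _ hne).1.1 e (mem_insert_self _ _) hPe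

/-- PROOF. As `H47T.ac_fiber` (file H47T/F1.lean), with cardinalities: `z` is supported on sets with at most `k`
elements, `z_τ` on sets with at most `k - |τ|` elements, so `c_τ` on sets with at most `k - |τ| + 1` elements. -/
theorem ack_fiber {k : ℕ} (K : Finset C → Prop) (hK : Dn K) (P : C → Prop)
    (h : ∀ τ : Finset C, (∀ S ∈ τ, P S) → K τ → τ.card ≤ k →
      H70H.ACk (k - τ.card) fun ρ : Finset C => (∀ S ∈ ρ, ¬ P S) ∧ K (τ ∪ ρ)) :
    H70H.ACk k K := by
  classical
  have claim : ∀ (m : ℕ) (z : Finset C → ZMod 2), (∀ s, z s ≠ 0 → K s ∧ s.card ≤ k) →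
      (∀ r, bd z r = 0) → (∀ s, z s ≠ 0 → (s.filter P).card < m) →
      ∃ c : Finset C → ZMod 2, (∀ s, c s ≠ 0 → K s ∧ s.card ≤ k + 1) ∧ ∀ r, bd c r = z r := by
    intro m
    induction m with
    | zero =>
      intro z hz hb hc
      refine ⟨fun _ => 0, fun s hs => absurd rfl hs, fun r => ?_⟩
      have h0 : z r = 0 := by
        by_contra hne
        exact absurd (hc r hne) (Nat.not_lt_zero _)
      rw [h0]
      unfold bd
      exact sum_eq_zero fun _ _ => rfl
    | succ m ih =>
      intro z hz hb hc
      obtain ⟨c, hc1, hc2⟩ := fib_step k K hK P h m z hz hb hc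
      have hsmall : ∀ r, bd c r ≠ 0 → K r ∧ r.card ≤ k := by
        intro r hr
        by_contra hcon
        apply hr
        unfold bd
        refine sum_eq_zero fun e he => ?_
        by_contra h0
        obtain ⟨q1, q2⟩ := hc1 _ h0
        rw [card_insert_of_notMem (mem_compl.1 he)] at q2
        exact hcon ⟨hK r (insert e r) (subset_insert _ _) q1, by omega⟩
      obtain ⟨c', hd1, hd2⟩ := ih (fun s => z s + bd c s)
        (by
          intro s hs
          by_cases h1 : z s = 0
          · exact hsmall s (by simpa [h1] using hs)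
          · exact hz s h1)
        (by
          intro r
          rw [bd_add, hb r, bd_bd, add_zero])
        (by
          intro s hs
          by_contra hcon
          apply hs
          show z s + bd c s = 0
          rw [hc2 s (not_lt.1 hcon)]
          exact CharTwo.add_self_eq_zero _)
      refine ⟨fun s => c s + c' s, ?_, ?_⟩
      · intro s hs
        by_cases h1 : c s = 0
        · exact hd1 s (by simpa [h1] using hs)
        · exact hc1 s h1
      · intro r
        rw [bd_add, hd2 r]
        have h2 : bd c r + bd c r = 0 := CharTwo.add_self_eq_zero _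
        calc bd c r + (z r + bd c r) = z r + (bd c r + bd c r) := by ring
          _ = z r := by rw [h2, add_zero]
  intro z hz hb
  refine claim (Fintype.card C + 1) z hz hb fun s _ => ?_
  have := card_le_univ (s.filter P)
  omega

end H47X
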