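import Pool.Agent.Lib.H56V.X7
import Pool.Agent.Lib.H56V.J
import Pool.Agent.Lib.H47X.K1

/-! # H47X, chunk G1: the complex of all unstable families (helper51) -/

set_option autoImplicit false

namespace H47X

open Finset H98P H98Z H98M H63F H96H H47T H56V

variable {V : Type*} [Fintype V] [DecidableEq V]

/-- The families of pairwise noncrossing cuts without `r` with an edge of `G` on both sides. -/
private def g1_XX (r : V) (G : Finset (Sym2 V)) (T : Finset {S : NCut V // r ∉ S.1}) : Prop :=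
  (∀ S ∈ T, ∀ S' ∈ T, NonX S.1.1 S'.1.1) ∧ ∀ S ∈ T, NS G S.1.1

private theorem g1_dn (r : V) (G : Finset (Sym2 V)) : Dn (g1_XX r G) := by
  intro s t hst h
  exact ⟨fun S hS S' hS' => h.1 S (hst hS) S' (hst hS'), fun S hS => h.2 S (hst hS)⟩

private theorem g1_nonX {r : V} {S T : Finset V} (hS : r ∉ S) (hT : r ∉ T) : NonX S T ↔ NX S T := by
  unfold NonX NX
  rw [Finset.disjoint_iff_inter_eq_empty]
  constructor
  · rintro (h | h | h | h)
    · exact Or.inl h
    · exact Or.inr (Or.inl h)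
    · exact Or.inr (Or.inr h)
    · exfalso
      have h1 : r ∈ S ∪ T := by
        rw [h]
        exact mem_univ r
      rcases mem_union.1 h1 with h2 | h2
      · exact hS h2
      · exact hT h2
  · rintro (h | h | h)
    · exact Or.inl h
    · exact Or.inr (Or.inl h)
    · exact Or.inr (Or.inr (Or.inl h))

private theorem g1_ns {r : V} {G : Finset (Sym2 V)} (hG : ∀ v, s(v, v) ∉ G) {S : Finset V} (hS : r ∉ S) :
    NS G S ↔ TP {r} G S := by
  unfold NS TP
  constructor
  · rintro ⟨h1, u, hu, w, hw, huw⟩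
    refine ⟨?_, h1, ?_⟩
    · rw [Finset.disjoint_singleton_right]
      exact hS
    · by_cases h : u = r
      · have hwr : w ≠ r := by
          intro h2
          rw [h, h2] at huw
          exact hG r huw
        refine ⟨w, hw, by simpa using hwr, u, hu, ?_⟩
        rw [Sym2.eq_swap]
        exact huw
      · exact ⟨u, hu, by simpa using h, w, hw, huw⟩
  · rintro ⟨_, h1, u, hu, _, w, hw, huw⟩
    exact ⟨h1, u, hu, w, hw, huw⟩

private theorem g1_two {G : Finset (Sym2 V)} (hG : ∀ v, s(v, v) ∉ G) {S : Finset V} {u w : V} (hu : u ∈ S) (hw : w ∈ S)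
    (huw : s(u, w) ∈ G) : 2 ≤ S.card := by
  have hne : u ≠ w := by
    rintro rfl
    exact hG u huw
  exact Finset.one_lt_card.2 ⟨u, hu, w, hw, hne⟩

/-- The embedding of the cuts without `r` into the sets of vertices. -/
private def g1_ff (r : V) : {S : NCut V // r ∉ S.1} ↪ Finset V :=
  ⟨fun S => S.1.1, fun _ _ h => Subtype.ext (Subtype.ext h)⟩

private theorem g1_hc_XX {r : V} {G : Finset (Sym2 V)} (hG : ∀ v, s(v, v) ∉ G) (hcls : Cls {r} G) {m : ℕ}
    (hm : m + 3 ≤ (univ \ {r} : Finset V).card) : HC (g1_XX r G) m := by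
  refine hc_emb (g1_ff r) (g1_XX r G) (FL (TP {r} G)) ?_ ?_ m (hc_TP hcls hm)
  · intro s
    constructor
    · rintro ⟨h1, h2⟩
      refine ⟨fun S hS => ?_, fun S hS S' hS' => ?_⟩
      · obtain ⟨T, hT, rfl⟩ := mem_map.1 hS
        exact (g1_ns hG T.2).1 (h2 T hT)
      · obtain ⟨T, hT, rfl⟩ := mem_map.1 hS
        obtain ⟨T', hT', rfl⟩ := mem_map.1 hS'
        exact (g1_nonX T.2 T'.2).1 (h1 T hT T' hT')
    · rintro ⟨h1, h2⟩
      refine ⟨fun S hS S' hS' => ?_, fun S hS => ?_⟩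
      · exact (g1_nonX S.2 S'.2).2
          (h2 _ (mem_map_of_mem (g1_ff r) hS) _ (mem_map_of_mem (g1_ff r) hS'))
      · exact (g1_ns hG S.2).2 (h1 _ (mem_map_of_mem (g1_ff r) hS))
  · intro s' hs' b hb
    have h1 := hs'.1 b hb
    have hr : r ∉ b := Finset.disjoint_singleton_right.1 h1.1
    obtain ⟨u, hu, w, hw, huw⟩ := h1.2.1
    obtain ⟨u', hu', _, w', hw', huw'⟩ := h1.2.2
    exact ⟨⟨⟨b, g1_two hG hu hw huw, g1_two hG (by simp [hu']) (by simp [hw']) huw'⟩, hr⟩, rfl⟩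

private theorem g1_hc_LG (hV : 4 ≤ Fintype.card V) {G : Finset (Sym2 V)} (hG : ∀ v, s(v, v) ∉ G)
    (r : V) (hcls : Cls {r} G) {j : ℕ} (hj : j + 5 ≤ 2 * Fintype.card V) : HC (LG r G) j := by
  have : Nonempty V := ⟨r⟩
  have key := hc_join (V := V) (B := {S : NCut V // r ∉ S.1}) (g1_XX r G) (g1_dn r G) j
    (fun m hm => g1_hc_XX hG hcls (by
      have h1 : (univ \ {r} : Finset V).card = Fintype.card V - 1 := by
        rw [Finset.sdiff_singleton_eq_erase, Finset.card_erase_of_mem (mem_univ r), Finset.card_univ]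
      rw [h1]
      omega))
  have heq : (fun T : Finset (V ⊕ {S : NCut V // r ∉ S.1}) =>
      (∃ v : V, (Sum.inl v : V ⊕ {S : NCut V // r ∉ S.1}) ∉ T) ∧ g1_XX r G T.toRight) = LG r G := by
    funext T
    apply propext
    unfold LG LP g1_XX
    constructor
    · rintro ⟨h1, h2, h3⟩
      exact ⟨⟨fun S S' hS hS' => h2 S (mem_toRight.2 hS) S' (mem_toRight.2 hS'), h1⟩,
        fun S hS => h3 S (mem_toRight.2 hS)⟩
    · rintro ⟨⟨h2, h1⟩, h3⟩
      exact ⟨h1, fun S hS S' hS' => h2 S S' (mem_toRight.1 hS) (mem_toRight.1 hS'),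
        fun S hS => h3 S (mem_toRight.1 hS)⟩
  rw [← heq]
  exact key

/-- PROOF. By `ack_of_hc` it is enough that `HC (LG r G) j` for `j ≤ k`: copy of `H56V.hc_LG_aux` (file H56V/G2a.lean, with its
private lemmas `XX`, `hc_XX`, ..) with `j` in the place of `G.card - 1`: `hc_join`, `m + (n - 1) = j`, `j + 5 ≤ 2 n` gives
`m + 3 ≤ n - 1`. -/
theorem ack_LG (hV : 4 ≤ Fintype.card V) {G : Finset (Sym2 V)} (hG : ∀ v, s(v, v) ∉ G) (r : V)
    (hcls : H56V.Cls {r} G) {k : ℕ} (hk : k + 5 ≤ 2 * Fintype.card V) : H70H.ACk k (H56V.LG r G) :=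
  ack_of_hc fun _ hj => g1_hc_LG hV hG r hcls (by omega)

end H47X
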