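import Pool.Agent.Lib.H47X.D
import Pool.Agent.Lib.H56V.G

/-! # H47X, chunk G2: feasible points and the class -/

set_option autoImplicit false

namespace H47X

open Finset H98P H98Z H98M H63F H96H H47T

variable {V : Type*} [Fintype V] [DecidableEq V]

private theorem px_nb {G : Finset (Sym2 V)} {x : Sym2 V → ℝ} (hx : x ∈ Sx G) {v : V} (h : 0 < cutw x {v}) :
    ∃ w, w ≠ v ∧ s(v, w) ∈ G := by
  by_contra hcon
  push Not at hcon
  have h0 : cutw x {v} = 0 := by
    unfold cutw
    apply Finset.sum_eq_zero
    intro e _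
    by_cases he : e ∈ G
    · have : px e {v} = 0 := by
        unfold px
        rw [if_neg]
        rintro ⟨a, ha, b, hb, rfl⟩
        rw [mem_singleton] at ha hb
        subst ha
        exact hcon b hb he
      rw [this, mul_zero]
    · rw [hx.2.1 e he, zero_mul]
  linarith

private theorem star_av {G : Finset (Sym2 V)} (hG : ∀ v, s(v, v) ∉ G) {x : Sym2 V → ℝ}
    (hx : x ∈ Sx G) (c : V) (hg : cutw x {c} < 1) :
    ∃ u, u ≠ c ∧ ∃ w, w ≠ c ∧ s(u, w) ∈ G := by
  by_contra hcon
  push Not at hcon
  have h1 : cutw x {c} = 1 := by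
    unfold cutw
    rw [← hx.2.2]
    apply Finset.sum_congr rfl
    intro e _
    by_cases he : e ∈ G
    · have : px e {c} = 1 := by
        unfold px
        rw [if_pos]
        induction e with
        | h u w =>
          by_cases hu : u = c
          · subst hu
            refine ⟨u, by simp, w, ?_, rfl⟩
            rw [mem_singleton]
            rintro rfl
            exact hG _ he
          · by_cases hw : w = c
            · subst hw
              refine ⟨w, by simp, u, ?_, Sym2.eq_swap⟩
              rw [mem_singleton]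
              exact hu
            · exact absurd he (hcon u hu w hw)
      rw [this, mul_one]
    · rw [hx.2.1 e he, zero_mul]
  linarith

/-- PROOF. As `H56V.cls_good` (file H56V/G.lean): every vertex has degree `cutw x {v} = rq s t M {v} > 0`, and for every `c`
some edge of `G` avoids `c`, otherwise `cutw x {c} = 1 > (2 + M)/(n + M) ≥ rq s t M {c}`. -/
theorem cls_feas (hV : 4 ≤ Fintype.card V) {s t : V} (hst : s ≠ t) {M : ℝ} (hM : 0 ≤ M) {G : Finset (Sym2 V)}
    (hG : ∀ v, s(v, v) ∉ G) {x : Sym2 V → ℝ} (hx : x ∈ Sx G) (hF : Feas s t M x) (r : V) : H56V.Cls {r} G := by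
  have _ := hst
  have h4 : (4 : ℝ) ≤ (Fintype.card V : ℝ) := by exact_mod_cast hV
  have hpos : ∀ v, 0 < cutw x {v} := by
    intro v
    rw [hF.1 v]
    unfold rq
    apply div_pos
    · split_ifs <;> linarith
    · linarith
  have hlt : ∀ v, cutw x {v} < 1 := by
    intro v
    rw [hF.1 v]
    unfold rq
    rw [div_lt_one (by linarith)]
    split_ifs <;> linarith
  have hnb : ∀ v, ∃ w, w ≠ v ∧ s(v, w) ∈ G := fun v => px_nb hx (hpos v)
  refine ⟨hG, singleton_nonempty r, ?_, ?_, ?_, ?_⟩
  · intro v _
    obtain ⟨w, _, h⟩ := hnb v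
    exact ⟨w, h⟩
  · obtain ⟨w, hw, h⟩ := hnb r
    exact ⟨w, by simpa using hw, r, by simp, by rw [Sym2.eq_swap]; exact h⟩
  · obtain ⟨u, hu, w, hw, h⟩ := star_av hG hx r (hlt r)
    exact ⟨u, by simpa using hu, w, by simpa using hw, h⟩
  · intro c hc
    obtain ⟨u, hu, w, hw, h⟩ := star_av hG hx c (hlt c)
    by_cases hur : u = r
    · subst hur
      refine ⟨w, ?_, hw, u, hu, by rw [Sym2.eq_swap]; exact h⟩
      rw [mem_singleton]
      rintro rfl
      exact hG _ h
    · exact ⟨u, by simpa using hur, hu, w, hw, h⟩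

end H47X
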