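import Pool.Agent.Lib.H47X.E
import Pool.Agent.Lib.H47T.Y

/-! # H47X, chunk Y: the sets of the carrier -/

set_option autoImplicit false

namespace H47X

open Finset H98P H98Z H98M H63F H96H H47T

variable {V : Type*} [Fintype V] [DecidableEq V]

private theorem yx_Sx_compact {A : Type*} [Fintype A] (s : Finset A) : IsCompact (Sx s) := by
  have h1 : IsClosed (Sx s) := by
    have e : Sx s = (⋂ a, {x : A → ℝ | 0 ≤ x a}) ∩ ((⋂ a, ⋂ (_ : a ∉ s), {x : A → ℝ | x a = 0}) ∩
        {x : A → ℝ | ∑ a, x a = 1}) := by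
      ext x
      simp only [Sx, Set.mem_inter_iff, Set.mem_iInter, Set.mem_setOf_eq]
    rw [e]
    refine IsClosed.inter (isClosed_iInter fun a => ?_) (IsClosed.inter (isClosed_iInter fun a =>
      isClosed_iInter fun _ => ?_) ?_)
    · exact isClosed_le continuous_const (continuous_apply a)
    · exact isClosed_eq (continuous_apply a) continuous_const
    · exact isClosed_eq (continuous_finsetSum _ fun a _ => continuous_apply a) continuous_const
  refine IsCompact.of_isClosed_subset (isCompact_univ_pi fun _ : A => isCompact_Icc (a := (0 : ℝ)) (b := 1)) h1 ?_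
  rintro x ⟨h2, -, h3⟩ a -
  refine ⟨h2 a, ?_⟩
  rw [← h3]
  exact Finset.single_le_sum (f := x) (fun b _ => h2 b) (Finset.mem_univ a)

private theorem yx_Sx_convex {A : Type*} [Fintype A] (s : Finset A) : Convex ℝ (Sx s) := by
  rintro x ⟨h1, h2, h3⟩ y ⟨g1, g2, g3⟩ a b ha hb hab
  refine ⟨fun e => ?_, fun e he => ?_, ?_⟩
  · have := mul_nonneg ha (h1 e)
    have := mul_nonneg hb (g1 e)
    simp only [Pi.add_apply, Pi.smul_apply, smul_eq_mul]
    linarith
  · simp only [Pi.add_apply, Pi.smul_apply, smul_eq_mul, h2 e he, g2 e he, mul_zero, add_zero]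
  · simp only [Pi.add_apply, Pi.smul_apply, smul_eq_mul]
    rw [Finset.sum_add_distrib, ← Finset.mul_sum, ← Finset.mul_sum, h3, g3, mul_one, mul_one, hab]

private theorem yx_py_cont (s t : V) (M : ℝ) (S : St V) : Continuous fun x : Sym2 V → ℝ => py s t M x S := by
  unfold py pay
  exact (continuous_finsetSum _ fun e _ => (continuous_apply e).mul continuous_const).add continuous_const

private theorem yx_cutw_cont (S : Finset V) : Continuous fun x : Sym2 V → ℝ => cutw x S := by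
  unfold cutw
  exact continuous_finsetSum _ fun e _ => (continuous_apply e).mul continuous_const

private theorem yx_py_lin (s t : V) (M : ℝ) (S : St V) (x y : Sym2 V → ℝ) (a b : ℝ) :
    py s t M (a • x + b • y) S = a * py s t M x S + b * py s t M y S := by
  unfold py pay
  rw [add_zero, add_zero, add_zero, Finset.mul_sum, Finset.mul_sum, ← Finset.sum_add_distrib]
  refine Finset.sum_congr rfl fun e _ => ?_
  simp only [Pi.add_apply, Pi.smul_apply, smul_eq_mul]
  ring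

private theorem yx_cutw_lin (S : Finset V) (x y : Sym2 V → ℝ) (a b : ℝ) :
    cutw (a • x + b • y) S = a * cutw x S + b * cutw y S := by
  unfold cutw
  rw [Finset.mul_sum, Finset.mul_sum, ← Finset.sum_add_distrib]
  refine Finset.sum_congr rfl fun e _ => ?_
  simp only [Pi.add_apply, Pi.smul_apply, smul_eq_mul]
  ring

/-- PROOF: as `H47T.YY_compact` (file H47T/Y.lean). -/
theorem YX_compact (s t : V) (M : ℝ) (G : Finset (Sym2 V)) (T : Finset (H56V.Sp V s × Bool)) :
    IsCompact (YX s t M G T) := by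
  have hQ : IsClosed {x : Sym2 V → ℝ | ∀ S, (S, false) ∈ T → ∀ S', pyS s t M x S ≤ pyS s t M x S'} := by
    have e : {x : Sym2 V → ℝ | ∀ S, (S, false) ∈ T → ∀ S', pyS s t M x S ≤ pyS s t M x S'} =
        ⋂ S, ⋂ (_ : (S, false) ∈ T), ⋂ S', {x : Sym2 V → ℝ | pyS s t M x S ≤ pyS s t M x S'} := by
      ext x
      simp only [Set.mem_iInter, Set.mem_setOf_eq]
    rw [e]
    exact isClosed_iInter fun S => isClosed_iInter fun _ => isClosed_iInter fun S' =>
      isClosed_le (yx_py_cont s t M (H56V.io S)) (yx_py_cont s t M (H56V.io S'))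
  have hF : IsClosed {x : Sym2 V → ℝ | Feas s t M x} := by
    have e : {x : Sym2 V → ℝ | Feas s t M x} = (⋂ v, {x : Sym2 V → ℝ | cutw x {v} = rq s t M {v}}) ∩
        ⋂ S : Finset V, ⋂ (_ : S.Nonempty), ⋂ (_ : S ≠ univ), {x : Sym2 V → ℝ | rq s t M S ≤ cutw x S} := by
      ext x
      simp only [Feas, Set.mem_inter_iff, Set.mem_iInter, Set.mem_setOf_eq]
    rw [e]
    exact IsClosed.inter (isClosed_iInter fun v => isClosed_eq (yx_cutw_cont {v}) continuous_const)
      (isClosed_iInter fun S => isClosed_iInter fun _ => isClosed_iInter fun _ =>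
        isClosed_le continuous_const (yx_cutw_cont S))
  have e : YX s t M G T = Sx G ∩ ({x : Sym2 V → ℝ | H56V.LP s (T.image Prod.fst)} ∩
      ({x : Sym2 V → ℝ | ∀ S, (S, false) ∈ T → ∀ S', pyS s t M x S ≤ pyS s t M x S'} ∩
        ({x : Sym2 V → ℝ | ∀ S, (S, true) ∉ T} ∪ ({x : Sym2 V → ℝ | s(s, t) ∈ G} ∩
          ({x : Sym2 V → ℝ | Feas s t M x} ∩ {x : Sym2 V → ℝ | CC s t M G (T.image Prod.fst)}))))) := by
    ext x
    simp only [YX, Set.mem_inter_iff, Set.mem_union, Set.mem_setOf_eq]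
  rw [e]
  exact (yx_Sx_compact G).inter_right (isClosed_const.inter (hQ.inter (isClosed_const.union
    (isClosed_const.inter (hF.inter isClosed_const)))))

theorem YX_convex (s t : V) (M : ℝ) (G : Finset (Sym2 V)) (T : Finset (H56V.Sp V s × Bool)) :
    Convex ℝ (YX s t M G T) := by
  rintro x ⟨h1, h2, h3, h4⟩ y ⟨g1, _, g3, g4⟩ a b ha0 hb0 hab
  refine ⟨yx_Sx_convex G h1 g1 ha0 hb0 hab, h2, fun S hS S' => ?_, ?_⟩
  · unfold pyS
    rw [yx_py_lin, yx_py_lin]
    exact add_le_add (mul_le_mul_of_nonneg_left (h3 S hS S') ha0)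
      (mul_le_mul_of_nonneg_left (g3 S hS S') hb0)
  · rcases h4 with h4 | ⟨h5, h6, h7⟩
    · exact Or.inl h4
    rcases g4 with g4 | ⟨g5, g6, g7⟩
    · exact Or.inl g4
    refine Or.inr ⟨h5, ⟨fun v => ?_, fun S hS hS' => ?_⟩, h7⟩
    · rw [yx_cutw_lin, h6.1, g6.1, ← add_mul, hab, one_mul]
    · rw [yx_cutw_lin]
      have k1 := mul_le_mul_of_nonneg_left (h6.2 S hS hS') ha0
      have k2 := mul_le_mul_of_nonneg_left (g6.2 S hS hS') hb0
      have k3 : rq s t M S = a * rq s t M S + b * rq s t M S := by rw [← add_mul, hab, one_mul]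
      linarith

private theorem yx_LP (s : V) {T T' : Finset (H56V.Sp V s)} (h : T ⊆ T') (hT : H56V.LP s T') : H56V.LP s T := by
  refine ⟨fun S S' hS hS' => hT.1 S S' (h hS) (h hS'), ?_⟩
  obtain ⟨v, hv⟩ := hT.2
  exact ⟨v, fun hv' => hv (h hv')⟩

private theorem yx_CC (s t : V) (M : ℝ) (G : Finset (Sym2 V)) {T T' : Finset (H56V.Sp V s)} (h : T ⊆ T')
    (hT : CC s t M G T') : CC s t M G T := by
  refine ⟨yx_LP s h hT.1, fun S hS => hT.2.1 S (h hS), ?_⟩
  rcases hT.2.2 with h1 | ⟨a, b, k1, k2, k3, k4, k5, k6, k7⟩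
  · exact Or.inl h1
  · exact Or.inr ⟨a, b, k1, k2, k3, k4, k5, k6, fun S hS => k7 S (h hS)⟩

theorem YX_anti (s t : V) (M : ℝ) (G : Finset (Sym2 V)) (T T' : Finset (H56V.Sp V s × Bool)) (h : T ⊆ T') :
    YX s t M G T' ⊆ YX s t M G T := by
  rintro x ⟨h1, h2, h3, h4⟩
  have hi : T.image Prod.fst ⊆ T'.image Prod.fst := Finset.image_subset_image h
  refine ⟨h1, yx_LP s hi h2, fun S hS => h3 S (h hS), ?_⟩
  rcases h4 with h4 | ⟨h5, h6, h7⟩
  · exact Or.inl fun S hS => h4 S (h hS)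
  · exact Or.inr ⟨h5, h6, yx_CC s t M G hi h7⟩

/-- PROOF: `Sx`, `Uns`, `HasTh` (`Th`) and the edge `ab` are monotone in `G`. -/
theorem YX_mono (s t : V) (M : ℝ) (G G' : Finset (Sym2 V)) (T : Finset (H56V.Sp V s × Bool)) (h : G ⊆ G') :
    YX s t M G T ⊆ YX s t M G' T := by
  rintro x ⟨h1, h2, h3, h4⟩
  refine ⟨⟨h1.1, fun e he => h1.2.1 e fun he' => he (h he'), h1.2.2⟩, h2, h3, ?_⟩
  rcases h4 with h4 | ⟨h5, h6, h7, h8, h9⟩
  · exact Or.inl h4
  · refine Or.inr ⟨h h5, h6, h7, fun S hS => ?_, ?_⟩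
    · obtain ⟨⟨c, hc, d, hd, hcd, hcd'⟩, ⟨c', hc', d', hd', hcd2, hcd2'⟩⟩ := h8 S hS
      exact ⟨⟨c, hc, d, hd, hcd, h hcd'⟩, ⟨c', hc', d', hd', hcd2, h hcd2'⟩⟩
    · rcases h9 with ⟨h10, L, hL, hM⟩ | ⟨a, b, k1, k2, k3, k4, k5, k6, k7⟩
      · exact Or.inl ⟨h h10, L, ⟨hL.1, hL.2.1, hL.2.2.1, fun l hl => (hL.2.2.2 l hl).imp fun _ _ hab => h hab⟩, hM⟩
      · exact Or.inr ⟨a, b, k1, k2, k3, k4, k5, h k6, k7⟩

theorem YX_empty (s t : V) (M : ℝ) {G : Finset (Sym2 V)} (h : G.Nonempty) : (YX s t M G ∅).Nonempty := by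
  obtain ⟨e, he⟩ := h
  refine ⟨fun f => if f = e then 1 else 0, ⟨fun f => ?_, fun f hf => ?_, ?_⟩, ?_, ?_, ?_⟩
  · change (0 : ℝ) ≤ if f = e then 1 else 0
    split_ifs <;> norm_num
  · change (if f = e then (1 : ℝ) else 0) = 0
    rw [if_neg]
    rintro rfl
    exact hf he
  · rw [Finset.sum_ite_eq' univ e]
    simp
  · rw [Finset.image_empty]
    exact ⟨fun S S' hS => absurd hS (Finset.notMem_empty _), s, Finset.notMem_empty _⟩
  · intro S hS
    exact absurd hS (Finset.notMem_empty _)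
  · exact Or.inl fun S => Finset.notMem_empty _

end H47X
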