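import Pool.Agent.Lib.H47X.K1
import Pool.Agent.Lib.H47T.F2

/-! # H47X, chunk K2: copies, truncated version -/

set_option autoImplicit false
set_option linter.unusedSectionVars false

namespace H47X

open Finset H98P H98Z H98M H63F H96H H47T

variable {C : Type*} [Fintype C] [DecidableEq C]

private theorem k2_img (i : Bool) (σ : Finset C) :
    (σ.image fun S => ((S, i) : C × Bool)).image Prod.fst = σ := by
  rw [Finset.image_image]
  ext x
  rw [Finset.mem_image]
  constructor
  · rintro ⟨y, hy, rfl⟩
    exact hy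
  · intro hx
    exact ⟨x, hx, rfl⟩

private theorem k2_img' (i : Bool) {T : Finset (C × Bool)} (hT : ∀ q ∈ T, q.2 = i) :
    (T.image Prod.fst).image (fun S => ((S, i) : C × Bool)) = T := by
  rw [Finset.image_image]
  ext x
  rw [Finset.mem_image]
  constructor
  · rintro ⟨y, hy, rfl⟩
    have h1 := hT y hy
    show (y.1, i) ∈ T
    rw [← h1]
    exact hy
  · intro hx
    refine ⟨x, hx, ?_⟩
    show (x.1, i) = x
    rw [← hT x hx]

private theorem k2_bd (i : Bool) (z : Finset (C × Bool) → ZMod 2)
    (hz : ∀ T, z T ≠ 0 → ∀ q ∈ T, q.2 = i) (σ : Finset C) :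
    bd (fun τ : Finset C => z (τ.image fun S => ((S, i) : C × Bool))) σ =
      bd z (σ.image fun S => ((S, i) : C × Bool)) := by
  unfold bd
  have hinj : Set.InjOn (fun S : C => ((S, i) : C × Bool)) ((σᶜ : Finset C) : Set C) := by
    intro a _ b _ hab
    exact (Prod.mk.inj hab).1
  have hsub : σᶜ.image (fun S => ((S, i) : C × Bool)) ⊆
      (σ.image fun S => ((S, i) : C × Bool))ᶜ := by
    intro q hq
    obtain ⟨S, hS, rfl⟩ := Finset.mem_image.1 hq
    rw [Finset.mem_compl]
    intro hm
    obtain ⟨S', hS', h⟩ := Finset.mem_image.1 hm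
    rw [Finset.mem_compl] at hS
    rw [(Prod.mk.inj h).1] at hS'
    exact hS hS'
  rw [← Finset.sum_subset hsub (fun q hq hq' => by
    by_contra hne
    have h1 : q.2 = i := hz _ hne q (Finset.mem_insert_self _ _)
    apply hq'
    refine Finset.mem_image.2 ⟨q.1, ?_, ?_⟩
    · rw [Finset.mem_compl]
      intro h2
      rw [Finset.mem_compl] at hq
      apply hq
      refine Finset.mem_image.2 ⟨q.1, h2, ?_⟩
      rw [← h1]
    · rw [← h1]), Finset.sum_image hinj]
  refine Finset.sum_congr rfl fun S _ => ?_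
  show z ((insert S σ).image fun S => ((S, i) : C × Bool)) = _
  rw [Finset.image_insert]

private theorem k2_card (i : Bool) (σ : Finset C) :
    (σ.image fun S => ((S, i) : C × Bool)).card = σ.card :=
  Finset.card_image_of_injective _ fun _ _ hab => (Prod.mk.inj hab).1

/-- PROOF. As `H47T.ac_copy` (file H47T/F2.lean); the image has the same cardinality. -/
theorem ack_copy {k : ℕ} (i : Bool) {K : Finset C → Prop} (hK : H70H.ACk k K) :
    H70H.ACk k fun T : Finset (C × Bool) => (∀ q ∈ T, q.2 = i) ∧ K (T.image Prod.fst) := by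
  classical
  refine H70H.ack_of fun z hz hb => ?_
  obtain ⟨c', hc', hbc'⟩ := hK (fun τ : Finset C => z (τ.image fun S => ((S, i) : C × Bool))) (by
    intro s hs
    have h1 := hz _ hs
    have h2 := h1.1.2
    rw [k2_img] at h2
    refine ⟨h2, ?_⟩
    have h3 := h1.2
    rwa [k2_card] at h3) (by
    intro r
    rw [k2_bd i z (fun T hT => (hz T hT).1.1), hb])
  have hsup : ∀ T : Finset (C × Bool),
      (if ∀ q ∈ T, q.2 = i then c' (T.image Prod.fst) else 0) ≠ 0 →
        (∀ q ∈ T, q.2 = i) ∧ K (T.image Prod.fst) := by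
    intro T hT
    by_cases h1 : ∀ q ∈ T, q.2 = i
    · rw [if_pos h1] at hT
      exact ⟨h1, (hc' _ hT).1⟩
    · rw [if_neg h1] at hT
      exact absurd rfl hT
  refine ⟨fun T => if ∀ q ∈ T, q.2 = i then c' (T.image Prod.fst) else 0, hsup, ?_⟩
  intro T
  by_cases h1 : ∀ q ∈ T, q.2 = i
  · have h2 := k2_bd i (fun T => if ∀ q ∈ T, q.2 = i then c' (T.image Prod.fst) else 0)
      (fun T hT => (hsup T hT).1) (T.image Prod.fst)
    rw [k2_img' i h1] at h2
    rw [← h2]
    have h3 : (fun τ : Finset C => if ∀ q ∈ τ.image (fun S => ((S, i) : C × Bool)), q.2 = i then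
        c' ((τ.image fun S => ((S, i) : C × Bool)).image Prod.fst) else 0) = c' := by
      funext τ
      rw [if_pos, k2_img]
      intro q hq
      obtain ⟨S, _, rfl⟩ := Finset.mem_image.1 hq
      rfl
    have h4 : bd (fun τ : Finset C => if ∀ q ∈ τ.image (fun S => ((S, i) : C × Bool)), q.2 = i then
        c' ((τ.image fun S => ((S, i) : C × Bool)).image Prod.fst) else 0) (T.image Prod.fst) =
        bd c' (T.image Prod.fst) := by rw [h3]
    refine h4.trans ?_
    rw [hbc', k2_img' i h1]
  · have h2 : z T = 0 := by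
      by_contra hne
      exact h1 (hz T hne).1.1
    rw [h2]
    unfold bd
    apply Finset.sum_eq_zero
    intro q _
    show (if ∀ q' ∈ insert q T, q'.2 = i then c' ((insert q T).image Prod.fst) else 0) = 0
    rw [if_neg]
    intro h3
    exact h1 fun q' hq' => h3 q' (Finset.mem_insert_of_mem hq')

/-- PROOF. As `H47T.ac_double`: `ack_fiber` with `P q := q.2 = false`; over `τ = ∅` `ack_copy true`, over `τ` with
`(S, false) ∈ τ` a cone with apex `(S, true)` (`H96H.ac_cone`, `H70H.ack_of_ac`). -/
theorem ack_double {k : ℕ} {K : Finset C → Prop} (hD : Dn K) (hK : H70H.ACk k K) (M : C → Prop) :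
    H70H.ACk k fun T : Finset (C × Bool) => K (T.image Prod.fst) ∧ ∀ S, (S, false) ∈ T → M S := by
  have hDn : Dn fun T : Finset (C × Bool) => K (T.image Prod.fst) ∧ ∀ S, (S, false) ∈ T → M S := by
    intro s t hst ht
    exact ⟨hD _ _ (Finset.image_subset_image hst) ht.1, fun S hS => ht.2 S (hst hS)⟩
  refine ack_fiber _ hDn (fun q => q.2 = false) ?_
  intro τ hτ hKτ _
  rcases τ.eq_empty_or_nonempty with rfl | ⟨q0, hq0⟩
  · rw [Finset.card_empty, Nat.sub_zero]
    refine H70H.ack_congr ?_ (ack_copy true hK)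
    intro ρ
    rw [Finset.empty_union]
    constructor
    · rintro ⟨h1, h2⟩
      refine ⟨fun S hS => by rw [h1 S hS]; exact Bool.noConfusion, h2, fun S hS => ?_⟩
      exact absurd (h1 _ hS) Bool.noConfusion
    · rintro ⟨h1, h2, _⟩
      refine ⟨fun q hq => ?_, h2⟩
      exact Bool.eq_true_of_not_eq_false (h1 q hq)
  · refine H70H.ack_of_ac _ (ac_cone ?_ (q0.1, true) ?_)
    · intro s t hst ht
      exact ⟨fun S hS => ht.1 S (hst hS), hDn _ _ (Finset.union_subset_union_right hst) ht.2⟩
    · intro ρ hρ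
      have himg : (τ ∪ insert (q0.1, true) ρ).image Prod.fst = (τ ∪ ρ).image Prod.fst := by
        rw [Finset.union_insert, Finset.image_insert]
        apply Finset.insert_eq_of_mem
        exact Finset.mem_image.2 ⟨q0, Finset.mem_union_left _ hq0, rfl⟩
      refine ⟨?_, ?_, ?_⟩
      · intro S hS
        rcases Finset.mem_insert.1 hS with h1 | h1
        · rw [h1]
          exact Bool.noConfusion
        · exact hρ.1 S h1
      · rw [himg]
        exact hρ.2.1
      · intro S hS
        apply hρ.2.2 S
        rw [Finset.union_insert] at hS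
        rcases Finset.mem_insert.1 hS with h1 | h1
        · exact absurd (Prod.mk.inj h1).2 Bool.noConfusion
        · exact h1

end H47X
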