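import Pool.Agent.Lib.H47X.E
import Pool.Agent.Lib.H47X.K2
import Pool.Agent.Lib.H47X.A3
import Pool.Agent.Lib.H47X.G1
import Pool.Agent.Lib.H47X.G2
import Pool.Agent.Lib.H47T.T
import Pool.Agent.Lib.H47T.X1

/-! # H47X, chunk Z: the fibres of the carrier -/

set_option autoImplicit false

namespace H47X

open Finset H98P H98Z H98M H63F H96H H47T

variable {V : Type*} [Fintype V] [DecidableEq V]

/-- Families of minimizers over a feasible point. -/
private theorem zx_cc (hV : 4 ≤ Fintype.card V) {s t : V} (hst : s ≠ t) {M : ℝ} (hM : 0 ≤ M)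
    {G : Finset (Sym2 V)} (hG : ∀ v, s(v, v) ∉ G) (hstG : s(s, t) ∈ G)
    {x : Sym2 V → ℝ} (hx : x ∈ Sx G) (hF : Feas s t M x) {τ : Finset (H56V.Sp V s)} (hL : H56V.LP s τ)
    (hmin : ∀ S ∈ τ, ∀ S', pyS s t M x S ≤ pyS s t M x S') : CC s t M G τ := by
  classical
  have h1 : ∑ e, x e = 1 := hx.2.2
  have hl : ∀ v, x s(v, v) = 0 := fun v => hx.2.1 _ (hG v)
  have htight : ∀ S : {S : NCut V // s ∉ S.1}, (Sum.inr S : H56V.Sp V s) ∈ τ → cutw x S.1.1 = rq s t M S.1.1 :=
    fun S hS => min_of_feasX hV h1 hl hF S (hmin _ hS)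
  refine ⟨hL, fun S hS => tight_uns hst hM hx hG hF S.1 (htight S hS), ?_⟩
  by_cases hno : HasTh s t M G
  · exact Or.inl hno
  refine Or.inr ?_
  by_contra hc
  push Not at hc
  obtain ⟨L, hL1, hL2⟩ := theta_of_tight hst hM hx hG hF
    (univ.filter fun S : NCut V => ∃ h : s ∉ S.1, (Sum.inr ⟨S, h⟩ : H56V.Sp V s) ∈ τ ∧ t ∈ S.1)
    (fun S hS => by
      obtain ⟨h, h2, h3⟩ := (mem_filter.1 hS).2
      exact ⟨fun h4 => h (h4.2 h3), htight ⟨S, h⟩ h2⟩)
    (fun S hS S' hS' => by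
      obtain ⟨h, h2, _⟩ := (mem_filter.1 hS).2
      obtain ⟨h', h2', _⟩ := (mem_filter.1 hS').2
      exact hL.1 ⟨S, h⟩ ⟨S', h'⟩ h2 h2')
    (fun a b hab ha1 ha2 hb1 hb2 he => by
      obtain ⟨S, hS1, hS2, hS3⟩ := hc a b hab ha1 ha2 hb1 hb2 he
      refine ⟨S.1, mem_filter.2 ⟨mem_univ _, S.2, hS1, hS2⟩, ?_⟩
      tauto)
  exact hno ⟨hstG, L, hL1, hL2⟩

/-- With a theta graph the allowed families are all laminar families of unstable cuts. -/
private theorem zx_LG {s t : V} {M : ℝ} {G : Finset (Sym2 V)} (hG : ∀ v, s(v, v) ∉ G) (hT : HasTh s t M G) :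
    CC s t M G = H56V.LG s G := by
  have hne : ∀ a b : V, s(a, b) ∈ G → a ≠ b := by
    rintro a b hab rfl
    exact hG a hab
  funext T
  refine propext ⟨fun h => ⟨h.1, fun S hS => ?_⟩, fun h => ⟨h.1, fun S hS => ?_, Or.inl hT⟩⟩
  · obtain ⟨⟨a, ha, b, hb, _, hab⟩, c, hc, d, hd, _, hcd⟩ := h.2.1 S hS
    exact ⟨⟨a, ha, b, hb, hab⟩, c, hc, d, hd, hcd⟩
  · obtain ⟨⟨a, ha, b, hb, hab⟩, c, hc, d, hd, hcd⟩ := h.2 S hS
    exact ⟨⟨a, ha, b, hb, hne _ _ hab, hab⟩, c, hc, d, hd, hne _ _ hcd, hcd⟩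

/-- PROOF. As `H47T.fiber` (file H47T/Z.lean). `x ∈ YX G ∅` means `x ∈ Sx G`. If `x` is not feasible: `hyp_aX`,
`H47T.ac_copy false`, `H70H.ack_of_ac`. If `x` is feasible, then `st ∈ G` (`hF`). If `τ` in `LP` consists of minimizers then
`CC s t M G τ`: the cuts are tight (`min_of_feasX`), so unstable (`H47T.tight_uns`), and if `¬ HasTh` and every edge of
`G - s - t` were separated by a member of `τ` with `t`, `H47T.theta_of_tight` would give a theta graph. So
`x ∈ YX G T` iff `CC s t M G (T.image Prod.fst)` and the members of the copy `false` are minimizers. `¬ HasTh`: `H47T.ac_double`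
with `ac_CC`, `dn_CC`. `HasTh`: `hcard` gives `G.card + 4 ≤ 2 n`; `CC s t M G = H56V.LG s G` (`Uns` and `H56V.NS` agree as
`G` has no loops), `ack_LG` with `cls_feas`, `ack_double`. -/
theorem fiberX (hV : 4 ≤ Fintype.card V) {s t : V} (hst : s ≠ t) {M : ℝ} (hM : 0 ≤ M) {G : Finset (Sym2 V)}
    (hG : ∀ v, s(v, v) ∉ G) (hne : G.Nonempty)
    (hcard : HasTh s t M G → G.card + 4 ≤ 2 * Fintype.card V)
    (hF : ∀ x ∈ Sx G, Feas s t M x → s(s, t) ∈ G)
    {x : Sym2 V → ℝ} (hx : x ∈ YX s t M G ∅) : H70H.ACk (G.card - 1) fun T => x ∈ YX s t M G T := by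
  have hxS : x ∈ Sx G := hx.1
  have h0 : ∀ e, 0 ≤ x e := hxS.1
  have h1 : ∑ e, x e = 1 := hxS.2.2
  have hl : ∀ v, x s(v, v) = 0 := fun v => hxS.2.1 _ (hG v)
  by_cases hfe : Feas s t M x
  · have hstG : s(s, t) ∈ G := hF x hxS hfe
    have heq : (fun T => x ∈ YX s t M G T) = fun T : Finset (H56V.Sp V s × Bool) =>
        CC s t M G (T.image Prod.fst) ∧
          ∀ S, (S, false) ∈ T → (fun S : H56V.Sp V s => ∀ S', pyS s t M x S ≤ pyS s t M x S') S := by
      funext T
      refine propext ⟨fun h => ?_, fun h => ?_⟩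
      · obtain ⟨_, h2, h3, h4⟩ := h
        refine ⟨?_, h3⟩
        rcases h4 with h4 | h4
        · refine zx_cc hV hst hM hG hstG hxS hfe h2 ?_
          intro S hS
          obtain ⟨q, hq1, hq2⟩ := mem_image.1 hS
          obtain ⟨S₁, b⟩ := q
          cases b
          · have : S₁ = S := hq2
            subst this
            exact h3 _ hq1
          · exact absurd hq1 (h4 S₁)
        · exact h4.2.2
      · exact ⟨hxS, h.1.1, h.2, Or.inr ⟨hstG, hfe, h.1⟩⟩
    rw [heq]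
    refine ack_double dn_CC ?_ _
    by_cases hT : HasTh s t M G
    · have h5 := hcard hT
      have h6 : 1 ≤ G.card := hne.card_pos
      rw [zx_LG hG hT]
      exact ack_LG hV hG s (cls_feas hV hst hM hG hxS hfe s) (by omega)
    · exact H70H.ack_of_ac _ (ac_CC hst hstG hT)
  · have hK := hyp_aX hV hst hM h0 h1 hl hfe
    have heq : (fun T => x ∈ YX s t M G T) = fun T : Finset (H56V.Sp V s × Bool) =>
        (∀ q ∈ T, q.2 = false) ∧
          (fun T : Finset (H56V.Sp V s) => H56V.LP s T ∧ ∀ S ∈ T, ∀ S', pyS s t M x S ≤ pyS s t M x S')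
            (T.image Prod.fst) := by
      funext T
      refine propext ⟨fun h => ?_, fun h => ?_⟩
      · obtain ⟨_, h2, h3, h4⟩ := h
        have h5 : ∀ S, (S, true) ∉ T := by
          rcases h4 with h4 | h4
          · exact h4
          · exact absurd h4.2.1 hfe
        refine ⟨?_, h2, ?_⟩
        · rintro ⟨S, b⟩ hq
          cases b
          · rfl
          · exact absurd hq (h5 S)
        · intro S hS
          obtain ⟨q, hq1, hq2⟩ := mem_image.1 hS
          obtain ⟨S₁, b⟩ := q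
          cases b
          · have : S₁ = S := hq2
            subst this
            exact h3 _ hq1
          · exact absurd hq1 (h5 S₁)
      · obtain ⟨h2, h3, h4⟩ := h
        refine ⟨hxS, h3, fun S hS => h4 S (mem_image_of_mem Prod.fst hS), Or.inl fun S hS => ?_⟩
        exact absurd (h2 _ hS) (by simp)
    rw [heq]
    exact H70H.ack_of_ac _ (ac_copy false hK)

end H47X
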