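import Pool.Agent.Lib.H47X.P3
import Pool.Agent.Lib.H47X.B
import Pool.Agent.Lib.H47X.Y
import Pool.Agent.Lib.H47X.Z
import Pool.Agent.Lib.H47X.Q
import Pool.Agent.Lib.H96H.B1
import Pool.Agent.Lib.H56V.K
import Pool.Agent.Lib.H47T.X1

/-! # H47X, chunk H: Theorem T with exactly 2n - 3 edges -/

set_option autoImplicit false

namespace H47X

open Finset H98P H98Z H98M H63F H96H H47T

variable {V : Type*} [Fintype V] [DecidableEq V]

private theorem tx_dnK (cross : Sym2 V → Sym2 V → Prop) : Dn (KK cross) := by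
  intro a b hab hb
  exact ⟨fun e he f hf => hb.1 e (hab he) f (hab hf), fun v hv => hb.2 v (hab hv)⟩

private theorem tx_L0 (s : V) : H56V.LP s (∅ : Finset (H56V.Sp V s)) :=
  ⟨fun S S' h => absurd h (notMem_empty _), s, notMem_empty _⟩

/-- THEOREM T, exact form. PROOF: `M = n`. Otherwise no plane `G` with `2n - 3` edges satisfies `HasTh s t n`.
`traceX` with `p = pS`, `K = KK cross` (`ac_KK`), `L = LP s`, `D = 2n - 4` (`H56V.card_LP`), `Y = YX s t n`, `ha` = `fiberX`
(`G.card ≤ 2n - 3`; `hF` by `H47T.feas_st`), `hb` = `hyp_bX`; the result contradicts `safeX`. -/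
theorem theoremTX (hV : 4 ≤ Fintype.card V) {cross : Sym2 V → Sym2 V → Prop}
    (hsymm : ∀ e f, cross e f → cross f e) (hHD : ∀ W : Finset V, HD cross W) {s t : V} (hst : s ≠ t) :
    ∃ G : Finset (Sym2 V), KK cross G ∧ G.card + 3 = 2 * Fintype.card V ∧ s(s, t) ∈ G ∧
      ∃ L : List (List V), Th s t G L := by
  by_contra hng
  have hM : (0 : ℝ) ≤ (Fintype.card V : ℝ) := Nat.cast_nonneg _
  have hs2 : Nonempty (Sym2 V) := ⟨s(s, s)⟩
  have hK0 : KK cross (∅ : Finset (Sym2 V)) :=
    ⟨fun e he => absurd he (notMem_empty _), fun v hv => absurd hv (notMem_empty _)⟩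
  obtain ⟨G, T, hGn, hGK, ⟨x, hx⟩, μ, hμ, hmax⟩ := traceX (pS s t (Fintype.card V : ℝ)) (KK cross)
    (H56V.LP s) (tx_dnK cross) (dn_LP s) hK0 (tx_L0 s) (ac_KK hV hsymm hHD)
    (2 * Fintype.card V - 4)
    (fun T hT => by
      have h := H56V.card_LP hV hT
      omega)
    (YX s t (Fintype.card V : ℝ)) (YX_compact s t _) (YX_convex s t _) (YX_anti s t _) (YX_mono s t _)
    (fun G T h => by
      obtain ⟨x, hx⟩ := h
      exact hx.2.1)
    (fun G hG => YX_empty s t _ hG)
    (fun G hG hGn hGc x hx => fiberX hV hst hM hG.2 hGn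
      (fun hTh => by
        have h1 : G.card + 3 ≠ 2 * Fintype.card V := by
          intro h
          obtain ⟨h2, L, hL, -⟩ := hTh
          exact hng ⟨G, hG, h, h2, L, hL⟩
        omega)
      (fun x hxG hF => by
        by_contra h1
        have h2 := feas_st hst hV hxG.1 hxG.2.2 (fun v => hxG.2.1 _ (hG.2 v)) hF
        rw [hxG.2.1 _ h1] at h2
        exact absurd h2 (lt_irrefl _)) hx)
    (fun T hT μ hμ => hyp_bX hV hsymm hHD hM hT hμ)
  exact safeX hV hst hM hGK.2 hx hμ hmax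

end H47X
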