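import Pool.Agent.Lib.H47X.D
import Pool.Agent.Lib.H63F.F4

/-! # H47X, chunk P1: push forward of chains -/

set_option autoImplicit false

namespace H47X

open Finset H98P H98Z H98M H63F H96H H47T

variable {C : Type*} [Fintype C] [DecidableEq C]

omit [Fintype C] in
private theorem p1_unique {U : Finset (C × Bool)} {T : Finset C} {q p : C × Bool} (hq : q ∈ U)
    (hp : p ∈ U) (hpq : p ≠ q) (h1 : p.1 = q.1) (hT : U.image Prod.fst = T)
    (hc : U.card = T.card + 1) (r : C × Bool) (hr : r ∈ U) :
    ((U.erase r).image Prod.fst = T ∧ (U.erase r).card = T.card) ↔ (r = p ∨ r = q) := by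
  have hcr := Finset.card_erase_add_one hr
  constructor
  · rintro ⟨h2, h3⟩
    by_contra h4
    push Not at h4
    have hinj : Set.InjOn Prod.fst ((U.erase r : Finset (C × Bool)) : Set (C × Bool)) :=
      Finset.card_image_iff.1 (by rw [h2, h3])
    have := hinj (Finset.mem_coe.2 (Finset.mem_erase.2 ⟨fun h => h4.1 h.symm, hp⟩))
      (Finset.mem_coe.2 (Finset.mem_erase.2 ⟨fun h => h4.2 h.symm, hq⟩)) h1
    exact hpq this
  · intro h2
    refine ⟨?_, by omega⟩
    rw [← hT]
    apply Finset.Subset.antisymm (Finset.image_subset_image (Finset.erase_subset _ _))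
    intro x hx
    obtain ⟨y, hy, hyx⟩ := Finset.mem_image.1 hx
    by_cases hyr : y = r
    · rcases h2 with h2 | h2
      · exact Finset.mem_image.2 ⟨q, Finset.mem_erase.2 ⟨fun h => hpq (by rw [h, h2]), hq⟩, by
          rw [← hyx, hyr, h2, h1]⟩
      · exact Finset.mem_image.2 ⟨p, Finset.mem_erase.2 ⟨fun h => hpq (by rw [h, h2]), hp⟩, by
          rw [← hyx, hyr, h2, h1]⟩
    · exact Finset.mem_image.2 ⟨y, Finset.mem_erase.2 ⟨hyr, hy⟩, hyx⟩

private theorem p1_aux (U : Finset (C × Bool)) (T : Finset C) (x : ZMod 2) :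
    (∑ a ∈ Tᶜ, if U.image Prod.fst = insert a T ∧ U.card = (insert a T).card then x else 0) =
      ∑ q ∈ U, if (U.erase q).image Prod.fst = T ∧ (U.erase q).card = T.card then x else 0 := by
  by_cases hA : ∃ a, a ∉ T ∧ U.image Prod.fst = insert a T ∧ U.card = (insert a T).card
  · obtain ⟨a, ha, h1, h2⟩ := hA
    have hinj : Set.InjOn Prod.fst ((U : Finset (C × Bool)) : Set (C × Bool)) :=
      Finset.card_image_iff.1 (by rw [h1, h2])
    have hcard : U.card = T.card + 1 := by rw [h2, Finset.card_insert_of_notMem ha]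
    rw [Finset.sum_eq_single a, if_pos ⟨h1, h2⟩]
    · have haU : a ∈ U.image Prod.fst := by rw [h1]; exact Finset.mem_insert_self _ _
      obtain ⟨q, hq, hqa⟩ := Finset.mem_image.1 haU
      rw [Finset.sum_eq_single q, if_pos]
      · refine ⟨?_, ?_⟩
        · ext y
          rw [Finset.mem_image]
          constructor
          · rintro ⟨z, hz, hzy⟩
            rw [Finset.mem_erase] at hz
            have h3 : y ∈ insert a T := by
              rw [← h1]
              exact Finset.mem_image.2 ⟨z, hz.2, hzy⟩
            rcases Finset.mem_insert.1 h3 with h4 | h4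
            · exact absurd (hinj (Finset.mem_coe.2 hz.2) (Finset.mem_coe.2 hq)
                (by rw [hzy, h4, hqa])) hz.1
            · exact h4
          · intro hy
            have h3 : y ∈ U.image Prod.fst := by rw [h1]; exact Finset.mem_insert_of_mem hy
            obtain ⟨z, hz, hzy⟩ := Finset.mem_image.1 h3
            refine ⟨z, Finset.mem_erase.2 ⟨fun h => ha ?_, hz⟩, hzy⟩
            rw [← hqa, ← h, hzy]
            exact hy
        · have := Finset.card_erase_add_one hq
          omega
      · intro r hr hrq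
        rw [if_neg]
        rintro ⟨h3, -⟩
        apply ha
        rw [← h3]
        exact Finset.mem_image.2 ⟨q, Finset.mem_erase.2 ⟨fun h => hrq h.symm, hq⟩, hqa⟩
      · intro h; exact absurd hq h
    · intro b hb hba
      rw [if_neg]
      rintro ⟨h3, -⟩
      rw [h1] at h3
      have h4 : b ∈ insert a T := by rw [h3]; exact Finset.mem_insert_self _ _
      rcases Finset.mem_insert.1 h4 with h5 | h5
      · exact hba h5
      · exact (Finset.mem_compl.1 hb) h5
    · intro h; exact absurd (Finset.mem_compl.2 ha) h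
  · rw [Finset.sum_eq_zero]
    · by_cases hB : ∃ q ∈ U, (U.erase q).image Prod.fst = T ∧ (U.erase q).card = T.card
      · obtain ⟨q, hq, h1, h2⟩ := hB
        have hcq := Finset.card_erase_add_one hq
        have hU : U.image Prod.fst = insert q.1 T := by
          rw [← h1, ← Finset.image_insert, Finset.insert_erase hq]
        have hqT : q.1 ∈ T := by
          by_contra h3
          exact hA ⟨q.1, h3, hU, by rw [Finset.card_insert_of_notMem h3]; omega⟩
        have hU' : U.image Prod.fst = T := by rw [hU, Finset.insert_eq_self.2 hqT]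
        have h3 : q.1 ∈ (U.erase q).image Prod.fst := by rw [h1]; exact hqT
        obtain ⟨p, hp, hpq⟩ := Finset.mem_image.1 h3
        rw [Finset.mem_erase] at hp
        have key := p1_unique hq hp.2 hp.1 hpq hU' (by omega)
        have hsum : (∑ r ∈ U, if (U.erase r).image Prod.fst = T ∧ (U.erase r).card = T.card
            then x else 0) = ∑ r ∈ U, if (r = p ∨ r = q) then x else 0 := by
          refine Finset.sum_congr rfl fun r hr => ?_
          by_cases h4 : r = p ∨ r = q
          · rw [if_pos h4, if_pos ((key r hr).2 h4)]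
          · rw [if_neg h4, if_neg fun h5 => h4 ((key r hr).1 h5)]
        rw [hsum, ← Finset.sum_filter]
        have hfil : U.filter (fun r => r = p ∨ r = q) = {p, q} := by
          ext r
          rw [Finset.mem_filter, Finset.mem_insert, Finset.mem_singleton]
          constructor
          · exact fun h => h.2
          · rintro (h | h)
            · exact ⟨by rw [h]; exact hp.2, Or.inl h⟩
            · exact ⟨by rw [h]; exact hq, Or.inr h⟩
        rw [hfil, Finset.sum_pair hp.1]
        exact (CharTwo.add_self_eq_zero x).symm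
      · rw [eq_comm, Finset.sum_eq_zero]
        intro q hq
        exact if_neg fun h => hB ⟨q, hq, h⟩
    · intro a ha
      exact if_neg fun h => hA ⟨a, Finset.mem_compl.1 ha, h⟩

/-- PROOF. For `T` and `T'` with `T'.image Prod.fst = T`: `bd (pf c) T = ∑ a ∉ T, pf c (insert a T)`; the terms of
`pf (bd c) T` are the `c (insert q T')`, `q ∉ T'`, `T'` nondegenerate over `T`: if `q.1 ∉ T` these are the terms of
`bd (pf c) T` (a nondegenerate set over `insert a T` is `insert q T'` in exactly one way with `q.1 = a`); if `q.1 ∈ T`, then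
`q = (a, !i)` with `(a, i) ∈ T'`, and the set `insert q T'` occurs twice (also from `T'` with `(a, i)` replaced by `q`). -/
theorem bd_pf (c : Finset (C × Bool) → ZMod 2) (T : Finset C) : bd (pf c) T = pf (bd c) T := by
  classical
  have hR : pf (bd c) T = ∑ U : Finset (C × Bool), ∑ q ∈ U,
      if (U.erase q).image Prod.fst = T ∧ (U.erase q).card = T.card then c U else 0 := by
    have h1 : pf (bd c) T = ∑ T' : Finset (C × Bool), ∑ q ∈ T'ᶜ,
        if T'.image Prod.fst = T ∧ T'.card = T.card then c (insert q T') else 0 := by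
      unfold pf bd
      refine Finset.sum_congr rfl fun T' _ => ?_
      by_cases h : T'.image Prod.fst = T ∧ T'.card = T.card
      · rw [if_pos h]
        exact Finset.sum_congr rfl fun q _ => by rw [if_pos h]
      · rw [if_neg h, eq_comm]
        exact Finset.sum_eq_zero fun q _ => by rw [if_neg h]
    rw [h1, Finset.sum_sigma', Finset.sum_sigma']
    refine Finset.sum_bij' (fun x _ => (⟨insert x.2 x.1, x.2⟩ : Σ _ : Finset (C × Bool), C × Bool))
      (fun x _ => (⟨x.1.erase x.2, x.2⟩ : Σ _ : Finset (C × Bool), C × Bool)) ?_ ?_ ?_ ?_ ?_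
    · rintro ⟨T', q⟩ hx
      simp
    · rintro ⟨U, q⟩ hx
      simp
    · rintro ⟨T', q⟩ hx
      simp only [Finset.mem_sigma, Finset.mem_compl] at hx
      simp only [Finset.erase_insert hx.2]
    · rintro ⟨U, q⟩ hx
      simp only [Finset.mem_sigma] at hx
      simp only [Finset.insert_erase hx.2]
    · rintro ⟨T', q⟩ hx
      simp only [Finset.mem_sigma, Finset.mem_compl] at hx
      simp only [Finset.erase_insert hx.2]
  rw [hR]
  have hL : bd (pf c) T = ∑ U : Finset (C × Bool), ∑ a ∈ Tᶜ,
      if U.image Prod.fst = insert a T ∧ U.card = (insert a T).card then c U else 0 := by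
    unfold pf bd
    rw [Finset.sum_comm]
  rw [hL]
  exact Finset.sum_congr rfl fun U _ => p1_aux U T (c U)

theorem pf_ne {c : Finset (C × Bool) → ZMod 2} {T : Finset C} (h : pf c T ≠ 0) :
    ∃ T' : Finset (C × Bool), T'.image Prod.fst = T ∧ T'.card = T.card ∧ c T' ≠ 0 := by
  unfold pf at h
  obtain ⟨T', -, hT'⟩ := Finset.exists_ne_zero_of_sum_ne_zero h
  by_cases h1 : T'.image Prod.fst = T ∧ T'.card = T.card
  · rw [if_pos h1] at hT'
    exact ⟨T', h1.1, h1.2, hT'⟩
  · rw [if_neg h1] at hT'
    exact absurd rfl hT'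

theorem pf_sum {ι : Type*} (s : Finset ι) (c : ι → Finset (C × Bool) → ZMod 2) (T : Finset C) :
    pf (fun T' => ∑ a ∈ s, c a T') T = ∑ a ∈ s, pf (c a) T := by
  unfold pf
  rw [Finset.sum_comm]
  refine Finset.sum_congr rfl fun T' _ => ?_
  by_cases h1 : T'.image Prod.fst = T ∧ T'.card = T.card
  · rw [if_pos h1]
    exact Finset.sum_congr rfl fun a _ => by rw [if_pos h1]
  · rw [if_neg h1, eq_comm]
    exact Finset.sum_eq_zero fun a _ => by rw [if_neg h1]

end H47X
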