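import Pool.Agent.Lib.H47X.P1
import Pool.Agent.Lib.H47X.P2
import Pool.Agent.Lib.H70H.K3
import Pool.Agent.Lib.H70H.K4

/-! # H47X, chunk P3: the trace theorem for two-copy carriers and bounded families -/

set_option autoImplicit false

namespace H47X

open Finset H98P H98Z H98M H63F H96H H47T

variable {E C : Type*} [Fintype E] [DecidableEq E] [Fintype C] [DecidableEq C]

private theorem p3_mono {A : Type*} [Fintype A] {s t : Finset A} (h : s ⊆ t) : Sx s ⊆ Sx t := by
  rintro x ⟨h1, h2, h3⟩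
  exact ⟨h1, fun e he => h2 e fun he' => he (h he'), h3⟩

private theorem p3_ne {A : Type*} [Fintype A] [DecidableEq A] {s : Finset A} (h : s.Nonempty) :
    (Sx s).Nonempty := by
  obtain ⟨a, ha⟩ := h
  refine ⟨Pi.single a 1, ?_, ?_, ?_⟩
  · intro e
    by_cases he : e = a
    · subst he
      rw [Pi.single_eq_same]
      exact zero_le_one
    · rw [Pi.single_eq_of_ne he]
  · intro e he
    exact Pi.single_eq_of_ne (fun h => he (by rw [h]; exact ha)) _
  · rw [Finset.sum_pi_single']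
    simp

private theorem p3_pf0 (c : Finset (C × Bool) → ZMod 2) (hc : ∀ T', c T' = if T' = ∅ then 1 else 0)
    (T : Finset C) : pf c T = if T = ∅ then 1 else 0 := by
  unfold pf
  rw [Finset.sum_eq_single (∅ : Finset (C × Bool))]
  · rw [hc, if_pos rfl]
    by_cases hT : T = ∅
    · subst hT
      rw [if_pos rfl, if_pos ⟨Finset.image_empty _, rfl⟩]
    · rw [if_neg hT, if_neg]
      rintro ⟨h1, -⟩
      exact hT (by rw [← h1, Finset.image_empty])
  · intro T' _ hT'
    rw [hc, if_neg hT', ite_self]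
  · intro h
    exact absurd (Finset.mem_univ _) h

/-- PROOF. `K1 G := K G ∧ G.card ≤ D + 1`. `H70H.carriersk` (A = E, B = C × Bool, on `K1`, `Γ G T = (Y G T).Nonempty`; `hac` =
`H70H.ack_conv` with `ha`) gives `θ'`. Put `θ G T = if G.card ≤ D then pf (θ' G) T else 0`. `θ ∅`: `pf` of the indicator of
`∅`. `θ1`: `pf_ne`, `hYL`. `θ2`: for `G.card ≤ D` by `bd_pf`, `pf_sum`. For `G.card = D + 1`: `pf (θ' G) = 0`, as its terms
would be in `L` with `D + 1` elements (`hD`), so `0 = bd (pf (θ' G)) = ∑ a, pf (θ' (G.erase a))`. For larger `G` both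
sides are `0`. Then `trace_map` with `Xi T G = K G ∧ ∃ μ ∈ Sx T, Amax p μ G` (`H63F.ac_psi`, see `H96H.minimaxK`). -/
theorem traceX [Nonempty E] (p : E → C → ℝ) (K : Finset E → Prop) (L : Finset C → Prop)
    (hK : Dn K) (hL : Dn L) (hK0 : K ∅) (hL0 : L ∅) (hAK : AC K) (D : ℕ) (hD : ∀ T, L T → T.card ≤ D)
    (Y : Finset E → Finset (C × Bool) → Set (E → ℝ))
    (hYc : ∀ G T, IsCompact (Y G T)) (hYv : ∀ G T, Convex ℝ (Y G T))
    (hYa : ∀ G T T', T ⊆ T' → Y G T' ⊆ Y G T)
    (hYm : ∀ G G' T, G ⊆ G' → Y G T ⊆ Y G' T)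
    (hYL : ∀ G T, (Y G T).Nonempty → L (T.image Prod.fst))
    (hY0 : ∀ G, G.Nonempty → (Y G ∅).Nonempty)
    (ha : ∀ G, K G → G.Nonempty → G.card ≤ D + 1 → ∀ x ∈ Y G ∅, H70H.ACk (G.card - 1) fun T => x ∈ Y G T)
    (hb : ∀ T, L T → ∀ μ ∈ Sx T, AC fun G : Finset E => K G ∧ Amax p μ G) :
    ∃ G T, G.Nonempty ∧ K G ∧ (Y G T).Nonempty ∧ ∃ μ ∈ Sx (T.image Prod.fst), Amax p μ G := by
  obtain ⟨θ', θ'0, θ'1, θ'2⟩ := H70H.carriersk (A := E) (B := C × Bool)
    (fun G => K G ∧ G.card ≤ D + 1)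
    (fun s t hst ht => ⟨hK s t hst ht.1, (Finset.card_le_card hst).trans ht.2⟩)
    (fun G T => (Y G T).Nonempty)
    (fun s t hst _ _ r hr => hr.mono (hYm s t r hst))
    (fun s _ hs => hY0 s hs)
    (fun s hs hsn => H70H.ack_conv (Y s) (hYc s) (hYv s) (hYa s) (hY0 s hsn) (ha s hs.1 hsn hs.2))
  -- the chain map
  have hz : ∀ G, K G → G.Nonempty → G.card = D + 1 → ∀ T, pf (θ' G) T = 0 := by
    intro G hG hGn hc T
    by_contra hne
    obtain ⟨T', h1, h2, h3⟩ := pf_ne hne
    obtain ⟨h4, h5⟩ := θ'1 G ⟨hG, hc.le⟩ hGn T' h3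
    have h6 := hYL G T' h4
    rw [h1] at h6
    have h7 := hD T h6
    omega
  have hsum : ∀ G, K G → G.Nonempty → G.card ≤ D + 1 → ∀ r,
      bd (pf (θ' G)) r = ∑ a ∈ G, pf (θ' (G.erase a)) r := by
    intro G hG hGn hc r
    rw [bd_pf, ← pf_sum]
    have e : bd (θ' G) = fun T' => ∑ a ∈ G, θ' (G.erase a) T' := by
      funext T'
      exact θ'2 G ⟨hG, hc⟩ hGn T'
    rw [e]
  obtain ⟨G, T, hGn, hKG, hTn, hθ, hXi⟩ := trace_map K L hK hL hK0 hL0 hAK
    (fun G T => if G.card ≤ D then pf (θ' G) T else 0)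
    (fun r => by
      rw [if_pos (by rw [Finset.card_empty]; exact Nat.zero_le D)]
      exact p3_pf0 (θ' ∅) θ'0 r)
    (fun G hG hGn T hT => by
      by_cases hc : G.card ≤ D
      · rw [if_pos hc] at hT
        obtain ⟨T', h1, h2, h3⟩ := pf_ne hT
        obtain ⟨h4, h5⟩ := θ'1 G ⟨hG, hc.trans (Nat.le_succ D)⟩ hGn T' h3
        have h6 := hYL G T' h4
        rw [h1] at h6
        exact ⟨h6, by rw [← h2, h5]⟩
      · rw [if_neg hc] at hT
        exact absurd rfl hT)
    (fun G hG hGn r => by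
      rcases Nat.lt_or_ge D G.card with hlt | hle
      · have e0 : (fun T : Finset C => if G.card ≤ D then pf (θ' G) T else 0) = fun _ => 0 := by
          funext T
          exact if_neg (by omega)
        have e1 : bd (fun T : Finset C => if G.card ≤ D then pf (θ' G) T else 0) r = 0 := by
          rw [e0]
          unfold bd
          exact Finset.sum_const_zero
        rw [e1]
        rcases Nat.eq_or_lt_of_le hlt with heq | hgt
        · have e2 : ∑ a ∈ G, (if (G.erase a).card ≤ D then pf (θ' (G.erase a)) r else 0) =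
              ∑ a ∈ G, pf (θ' (G.erase a)) r := by
            refine Finset.sum_congr rfl fun a ha' => ?_
            rw [if_pos]
            rw [Finset.card_erase_of_mem ha']
            omega
          rw [e2, ← hsum G hG hGn (by omega) r]
          have e3 : pf (θ' G) = fun _ => 0 := by
            funext T
            exact hz G hG hGn (by omega) T
          rw [e3]
          unfold bd
          exact Finset.sum_const_zero.symm
        · symm
          refine Finset.sum_eq_zero fun a ha' => ?_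
          rw [if_neg]
          rw [Finset.card_erase_of_mem ha']
          omega
      · have e0 : (fun T : Finset C => if G.card ≤ D then pf (θ' G) T else 0) = pf (θ' G) := by
          funext T
          exact if_pos hle
        rw [e0, hsum G hG hGn (by omega) r]
        refine Finset.sum_congr rfl fun a ha' => ?_
        rw [if_pos]
        rw [Finset.card_erase_of_mem ha']
        omega)
    (fun T G => K G ∧ ∃ μ ∈ Sx T, Amax p μ G)
    (fun T G _ _ h => h.1)
    (fun T T' hTT' _ _ G h => ⟨h.1, h.2.imp fun μ hμ => ⟨p3_mono hTT' hμ.1, hμ.2⟩⟩)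
    (fun T _ hTn => ⟨hK0, (p3_ne hTn).imp fun μ hμ => ⟨hμ, fun e he => absurd he (Finset.notMem_empty e)⟩⟩)
    (fun T hLT hTn => ac_psi p K hK hK0 hTn (hb T hLT))
  have hc : G.card ≤ D := by
    by_contra hcon
    exact hθ (if_neg hcon)
  have hθ' : pf (θ' G) T ≠ 0 := by
    have : (if G.card ≤ D then pf (θ' G) T else 0) ≠ 0 := hθ
    rwa [if_pos hc] at this
  obtain ⟨T', h1, h2, h3⟩ := pf_ne hθ'
  obtain ⟨h4, h5⟩ := θ'1 G ⟨hKG, hc.trans (Nat.le_succ D)⟩ hGn T' h3
  obtain ⟨-, μ, hμ, hμ'⟩ := hXi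
  exact ⟨G, T', hGn, hKG, h4, μ, by rw [h1]; exact hμ, hμ'⟩

end H47X
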