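import Pool.Agent.Lib.H47X.D

/-! # H47X, chunk PI: strategies of H56V as strategies of H96H -/

set_option autoImplicit false

namespace H47X

open Finset H98P H98Z H98M H63F H96H H47T

variable {V : Type*} [Fintype V] [DecidableEq V]

/-- PROOF. `io` is injective. `μ' σ = ∑ S, if io S = σ then μ S else 0`. `LL (T.image io)`: the cuts are the same, `(v, false)`
does not occur (`V` is nonempty: `s`), not all `(v, true)` by `LP`. -/
theorem push_io {s t : V} {M : ℝ} {T : Finset (H56V.Sp V s)} (hT : H56V.LP s T) {μ : H56V.Sp V s → ℝ} (hμ : μ ∈ Sx T) :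
    LL (T.image H56V.io) ∧ ∃ μ' ∈ Sx (T.image H56V.io), (∀ S, μ' (H56V.io S) = μ S) ∧
      (∀ e : Sym2 V, mm (pT s t M) μ' e = mm (pS s t M) μ e) ∧
      ∀ x : Sym2 V → ℝ, ∑ σ, μ' σ * py s t M x σ = ∑ S, μ S * pyS s t M x S := by
  classical
  have hinj : ∀ S S' : H56V.Sp V s, H56V.io S = H56V.io S' → S = S' := by
    rintro (v | S) (v' | S') h
    · have h1 : (v, true) = (v', true) := Sum.inl_injective h
      rw [(Prod.mk.inj h1).1]
    · exact absurd h (by simp [H56V.io])
    · exact absurd h (by simp [H56V.io])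
    · have h1 : S.1 = S'.1 := Sum.inr_injective h
      rw [Subtype.ext h1]
  obtain ⟨hμ0, hμT, hμ1⟩ := hμ
  refine ⟨?_, fun σ => ∑ S, if H56V.io S = σ then μ S else 0, ?_, ?_, ?_, ?_⟩
  · refine ⟨?_, ?_, ?_⟩
    · intro S S' hS hS'
      rw [Finset.mem_image] at hS hS'
      obtain ⟨a, ha, ha1⟩ := hS
      obtain ⟨a', ha', ha1'⟩ := hS'
      rcases a with v | S1
      · exact absurd ha1 (by simp [H56V.io])
      rcases a' with v | S1'
      · exact absurd ha1' (by simp [H56V.io])
      have h1 : S1.1 = S := Sum.inr_injective ha1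
      have h2 : S1'.1 = S' := Sum.inr_injective ha1'
      rw [← h1, ← h2]
      exact hT.1 S1 S1' ha ha'
    · rintro v ⟨-, h2⟩
      rw [Finset.mem_image] at h2
      obtain ⟨a, ha, ha1⟩ := h2
      rcases a with v' | S1
      · exact absurd ha1 (by simp [H56V.io])
      · exact absurd ha1 (by simp [H56V.io])
    · intro b
      obtain ⟨v, hv⟩ := hT.2
      refine ⟨v, fun h2 => hv ?_⟩
      rw [Finset.mem_image] at h2
      obtain ⟨a, ha, ha1⟩ := h2
      rcases a with v' | S1
      · have h3 : (v', true) = (v, b) := Sum.inl_injective ha1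
        rw [(Prod.mk.inj h3).1] at ha
        exact ha
      · exact absurd ha1 (by simp [H56V.io])
  · refine ⟨fun σ => Finset.sum_nonneg fun S _ => ?_, fun σ hσ => Finset.sum_eq_zero fun S _ => ?_, ?_⟩
    · split_ifs
      · exact hμ0 S
      · exact le_rfl
    · split_ifs with h1
      · exact hμT S fun h2 => hσ (Finset.mem_image.2 ⟨S, h2, h1⟩)
      · rfl
    · rw [Finset.sum_comm, ← hμ1]
      exact Finset.sum_congr rfl fun S _ => by simp
  · intro S
    show (∑ S', if H56V.io S' = H56V.io S then μ S' else 0) = μ S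
    rw [Finset.sum_eq_single S]
    · rw [if_pos rfl]
    · intro S' _ hS'
      rw [if_neg fun h => hS' (hinj S' S h)]
    · intro h
      exact absurd (Finset.mem_univ S) h
  · intro e
    change ∑ σ, (∑ S, (if H56V.io S = σ then μ S else 0)) * pT s t M e σ = ∑ S, μ S * pT s t M e (H56V.io S)
    simp only [Finset.sum_mul]
    rw [Finset.sum_comm]
    exact Finset.sum_congr rfl fun S _ => by simp
  · intro x
    change ∑ σ, (∑ S, (if H56V.io S = σ then μ S else 0)) * py s t M x σ = ∑ S, μ S * py s t M x (H56V.io S)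
    simp only [Finset.sum_mul]
    rw [Finset.sum_comm]
    exact Finset.sum_congr rfl fun S _ => by simp

end H47X
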